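import Mathlib
import Pool.Agent.TH559.LE.Red

/-!
# Extending precoloured matchings to total colourings

The extension of a total colouring of a matching is reduced to a list colouring of the remaining
edges.
-/

set_option autoImplicit false

namespace Pool.Agent.R61.TotExt

open Finset Pool.Agent.TH559.LE

/-- `f` (colours of the vertices) and `g` (colours of the edges) form a total colouring of `G`
with colours from `Fin k`: adjacent vertices have different colours, edges that share an end have
different colours, and the colour of an edge differs from the colours of its ends.  (The values of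
`g` on pairs that are not edges, and the values of `f` on isolated vertices, are irrelevant.) -/
def IsTotal {V : Type} (G : SimpleGraph V) {k : ℕ} (f : V → Fin k) (g : Sym2 V → Fin k) : Prop :=
  (∀ u v, G.Adj u v → f u ≠ f v) ∧
  (∀ u v w, G.Adj u v → G.Adj u w → v ≠ w → g s(u, v) ≠ g s(u, w)) ∧
  ∀ u v, G.Adj u v → g s(u, v) ≠ f u

/-- Greedy extension of a vertex colouring. -/
theorem vext {V : Type} [Fintype V] (G : SimpleGraph V) {K : ℕ} (f0 : V → Fin K) (D : V → Prop)
    (hprop : ∀ u v, D u → D v → G.Adj u v → f0 u ≠ f0 v) (hdeg : ∀ v, dg G v < K) :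
    ∃ f : V → Fin K, (∀ v, D v → f v = f0 v) ∧ ∀ u v, G.Adj u v → f u ≠ f v := by
  classical
  have key : ∀ S : Finset V, ∃ f : V → Fin K, (∀ v, D v → f v = f0 v) ∧
      ∀ u v, (D u ∨ u ∈ S) → (D v ∨ v ∈ S) → G.Adj u v → f u ≠ f v := by
    intro S
    induction S using Finset.induction_on with
    | empty =>
      refine ⟨f0, fun _ _ => rfl, ?_⟩
      intro u v hu hv
      simp only [notMem_empty, or_false] at hu hv
      exact hprop u v hu hv
    | insert a S _ ih =>
      obtain ⟨f, h1, h2⟩ := ih
      by_cases ha : D a
      · refine ⟨f, h1, ?_⟩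
        intro u v hu hv
        apply h2
        · rcases hu with hu | hu
          · exact Or.inl hu
          · rcases mem_insert.1 hu with rfl | hu
            · exact Or.inl ha
            · exact Or.inr hu
        · rcases hv with hv | hv
          · exact Or.inl hv
          · rcases mem_insert.1 hv with rfl | hv
            · exact Or.inl ha
            · exact Or.inr hv
      · have hcard : ((univ.filter (fun w => G.Adj a w)).image f).card <
            (univ : Finset (Fin K)).card := by
          rw [card_univ, Fintype.card_fin]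
          refine lt_of_le_of_lt card_image_le ?_
          rw [← dg_eq]
          exact hdeg a
        obtain ⟨γ, _, hγ⟩ := exists_mem_notMem_of_card_lt_card hcard
        have hγ' : ∀ w, G.Adj a w → f w ≠ γ := by
          intro w hw heq
          exact hγ (mem_image.2 ⟨w, by simpa using hw, heq⟩)
        refine ⟨Function.update f a γ, ?_, ?_⟩
        · intro v hv
          have hva : v ≠ a := by
            rintro rfl
            exact ha hv
          rw [Function.update_of_ne hva]
          exact h1 v hv
        · intro u v hu hv huv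
          by_cases hua : u = a
          · subst hua
            have hvu : v ≠ u := huv.ne'
            rw [Function.update_self, Function.update_of_ne hvu]
            exact (hγ' v huv).symm
          · by_cases hva : v = a
            · subst hva
              rw [Function.update_self, Function.update_of_ne hua]
              exact hγ' u huv.symm
            · rw [Function.update_of_ne hua, Function.update_of_ne hva]
              refine h2 u v ?_ ?_ huv
              · rcases hu with hu | hu
                · exact Or.inl hu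
                · exact Or.inr ((mem_insert.1 hu).resolve_left hua)
              · rcases hv with hv | hv
                · exact Or.inl hv
                · exact Or.inr ((mem_insert.1 hv).resolve_left hva)
  obtain ⟨f, h1, h2⟩ := key univ
  exact ⟨f, h1, fun u v huv => h2 u v (Or.inr (mem_univ u)) (Or.inr (mem_univ v)) huv⟩

open Classical in
/-- Reduction to a list colouring of the edges outside the precoloured matching. Here
`D v` says that `v` is covered by the matching `H`. -/
theorem core {V : Type} [Fintype V] (G H : SimpleGraph V) (_hHG : H ≤ G) {K : ℕ}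
    (hmatch : ∀ u v w, H.Adj u v → H.Adj u w → v = w)
    (f0 : V → Fin K) (g0 : Sym2 V → Fin K) (h0 : IsTotal H f0 g0)
    (hprop : ∀ u v, (∃ x, H.Adj u x) → (∃ y, H.Adj v y) → G.Adj u v → f0 u ≠ f0 v)
    (f : V → Fin K) (hf0 : ∀ v, (∃ x, H.Adj v x) → f v = f0 v)
    (hf : ∀ u v, G.Adj u v → f u ≠ f v)
    (hlist : ∀ L : Sym2 V → Finset ℕ,
      (∀ u v, (G \ H).Adj u v → ∀ γ : ℕ, γ ∈ L s(u, v) ↔ (γ < K ∧ γ ≠ (f u).1 ∧ γ ≠ (f v).1 ∧
        (∀ x, H.Adj u x → γ ≠ (g0 s(u, x)).1) ∧ ∀ x, H.Adj v x → γ ≠ (g0 s(v, x)).1)) →
      ∃ c, Ok (G \ H) L c) :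
    ∃ (f : V → Fin K) (g : Sym2 V → Fin K), IsTotal G f g ∧
      ∀ u v, H.Adj u v → f u = f0 u ∧ g s(u, v) = g0 s(u, v) := by
  have _ := hprop
  set P : ℕ → Sym2 V → Prop := fun γ z => ∀ w ∈ z, γ ≠ (f w).1 ∧
    ∀ x, H.Adj w x → γ ≠ (g0 s(w, x)).1 with hP
  obtain ⟨c, hc⟩ := hlist (fun z => (range K).filter (fun γ => P γ z)) (by
    intro u v _ γ
    simp only [mem_filter, mem_range, hP, Sym2.mem_iff, forall_eq_or_imp, forall_eq]
    tauto)
  have hcm : ∀ u v, (G \ H).Adj u v → c s(u, v) < K ∧ P (c s(u, v)) s(u, v) := by
    intro u v huv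
    have := hc.1 u v huv
    rwa [mem_filter, mem_range] at this
  refine ⟨f, fun z => if z ∈ H.edgeSet then g0 z else if h : c z < K then ⟨c z, h⟩ else g0 z,
    ⟨hf, ?_, ?_⟩, ?_⟩
  · -- adjacent edges
    have hin : ∀ u v, H.Adj u v →
        (fun z => if z ∈ H.edgeSet then g0 z else if h : c z < K then ⟨c z, h⟩ else g0 z) s(u, v)
          = g0 s(u, v) := by
      intro u v huv
      simp only
      rw [if_pos ((SimpleGraph.mem_edgeSet H).2 huv)]
    have hout : ∀ u v, (G \ H).Adj u v →
        ((fun z => if z ∈ H.edgeSet then g0 z else if h : c z < K then ⟨c z, h⟩ else g0 z)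
          s(u, v)).1 = c s(u, v) := by
      intro u v huv
      simp only
      rw [if_neg (fun h => huv.2 ((SimpleGraph.mem_edgeSet H).1 h)), dif_pos (hcm u v huv).1]
    intro u v w huv huw hne
    by_cases h1 : H.Adj u v
    · by_cases h2 : H.Adj u w
      · exact absurd (hmatch u v w h1 h2) hne
      · intro heq
        have h3 := congrArg Fin.val heq
        rw [hin u v h1, hout u w ⟨huw, h2⟩] at h3
        exact ((hcm u w ⟨huw, h2⟩).2 u (Sym2.mem_mk_left _ _)).2 v h1 h3.symm
    · by_cases h2 : H.Adj u w
      · intro heq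
        have h3 := congrArg Fin.val heq
        rw [hin u w h2, hout u v ⟨huv, h1⟩] at h3
        exact ((hcm u v ⟨huv, h1⟩).2 u (Sym2.mem_mk_left _ _)).2 w h2 h3
      · intro heq
        have h3 := congrArg Fin.val heq
        rw [hout u w ⟨huw, h2⟩, hout u v ⟨huv, h1⟩] at h3
        exact hc.2 u v w ⟨huv, h1⟩ ⟨huw, h2⟩ hne h3
  · intro u v huv
    by_cases h1 : H.Adj u v
    · simp only
      rw [if_pos ((SimpleGraph.mem_edgeSet H).2 h1), hf0 u ⟨v, h1⟩]
      exact h0.2.2 u v h1
    · simp only
      rw [if_neg (fun h => h1 ((SimpleGraph.mem_edgeSet H).1 h)), dif_pos (hcm u v ⟨huv, h1⟩).1]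
      intro heq
      have h3 := congrArg Fin.val heq
      exact ((hcm u v ⟨huv, h1⟩).2 u (Sym2.mem_mk_left _ _)).1 h3
  · intro u v huv
    refine ⟨hf0 u ⟨v, huv⟩, ?_⟩
    simp only
    rw [if_pos ((SimpleGraph.mem_edgeSet H).2 huv)]

end Pool.Agent.R61.TotExt
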