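import Mathlib
import Pool.Agent.TH559.LE.Red

/-!
# List edge colourings with slightly short lists around a sparse set of vertices

The lists have at least `Δ` colours, except that the edges with an end in the set `D` only have
lists of at least `Δ - 1` colours; the vertices in `D` have degree at most `Δ - 1`, they are
independent, and every vertex has at most two neighbours in `D`.
-/

set_option autoImplicit false

namespace Pool.Agent.R61.TotExt

open Finset Pool.Agent.TH559.LE

variable {V : Type}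

/-- Greedy extension of a list edge colouring. -/
theorem ext_greedy [Fintype V] (A B : SimpleGraph V) (hAB : A ≤ B) (L : Sym2 V → Finset ℕ)
    (hL : ∀ u v, B.Adj u v → ¬ A.Adj u v → dg B u + dg B v ≤ (L s(u, v)).card + 1)
    (c : Sym2 V → ℕ) (hc : Ok A L c) : ∃ c', Ok B L c' := by
  classical
  have hfin : {A' : SimpleGraph V | A ≤ A' ∧ A' ≤ B ∧ ∃ c, Ok A' L c}.Finite := Set.toFinite _
  obtain ⟨A', hA', hmax⟩ := hfin.exists_maximal ⟨A, le_rfl, hAB, c, hc⟩
  obtain ⟨h1, h2, c1, hc1⟩ := hA'
  by_cases heq : A' = B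
  · rw [← heq]
    exact ⟨c1, hc1⟩
  · exfalso
    obtain ⟨u, v, huv, hnot⟩ : ∃ u v, B.Adj u v ∧ ¬ A'.Adj u v := by
      by_contra hcon
      push Not at hcon
      exact heq (le_antisymm h2 (fun u v h => hcon u v h))
    have hne : u ≠ v := huv.ne
    let C : SimpleGraph V :=
      { Adj := fun a b => A'.Adj a b ∨ (a = u ∧ b = v) ∨ (a = v ∧ b = u)
        symm := ⟨fun a b h => by
          rcases h with h | h | h
          · exact Or.inl h.symm
          · exact Or.inr (Or.inr ⟨h.2, h.1⟩)
          · exact Or.inr (Or.inl ⟨h.2, h.1⟩)⟩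
        loopless := ⟨fun a h => by
          rcases h with h | h | h
          · exact A'.loopless.irrefl a h
          · exact hne (h.1.symm.trans h.2)
          · exact hne (h.2.symm.trans h.1)⟩ }
    have hC : ∀ a b, C.Adj a b ↔ A'.Adj a b ∨ (a = u ∧ b = v) ∨ (a = v ∧ b = u) :=
      fun _ _ => Iff.rfl
    have hA'C : A' ≤ C := fun a b h => Or.inl h
    have hCB : C ≤ B := by
      intro a b h
      rcases (hC a b).1 h with h | ⟨rfl, rfl⟩ | ⟨rfl, rfl⟩
      · exact h2 h
      · exact huv
      · exact huv.symm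
    have hCuv : C.Adj u v := (hC u v).2 (Or.inr (Or.inl ⟨rfl, rfl⟩))
    obtain ⟨c2, hc2⟩ := ext A' C hA'C (fun w => w = u) (by
      intro a b hab hnab
      rcases (hC a b).1 hab with h | ⟨rfl, rfl⟩ | ⟨rfl, rfl⟩
      · exact absurd h hnab
      · simp [hne.symm]
      · simp [hne.symm]) L (by
      intro a b hab hnab
      have e1 : dg A' b < dg C b := dg_lt hA'C hab.symm (fun h => hnab h.symm)
      have e2 : dg C b ≤ dg B b := dg_mono hCB b
      have e3 : dg C a ≤ dg B a := dg_mono hCB a
      have e4 := hL a b (hCB hab) (fun h => hnab (h1 h))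
      omega) c1 hc1
    have h3 := hmax (y := C) ⟨h1.trans hA'C, hCB, c2, hc2⟩ hA'C
    exact hnot (h3 hCuv)

/-- The situation: lists of at least `Δ` colours, and of at least `Δ - 1` colours for edges with
an end in `D`. -/
structure Sys [Fintype V] (D : V → Prop) (Δ : ℕ) (L : Sym2 V → Finset ℕ) (G : SimpleGraph V) :
    Prop where
  deg : ∀ v, dg G v ≤ Δ
  degD : ∀ v, D v → dg G v + 1 ≤ Δ
  indep : ∀ u v, G.Adj u v → D u → ¬ D v
  two : ∀ v, {w | G.Adj v w ∧ D w}.ncard ≤ 2
  l1 : ∀ u v, G.Adj u v → Δ ≤ (L s(u, v)).card + 1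
  l2 : ∀ u v, G.Adj u v → ¬ D u → ¬ D v → Δ ≤ (L s(u, v)).card

theorem Sys.mono [Fintype V] {D : V → Prop} {Δ : ℕ} {L : Sym2 V → Finset ℕ}
    {G H : SimpleGraph V} (h : Sys D Δ L G) (hH : H ≤ G) : Sys D Δ L H where
  deg v := (dg_mono hH v).trans (h.deg v)
  degD v hv := le_trans (Nat.add_le_add_right (dg_mono hH v) 1) (h.degD v hv)
  indep u v huv := h.indep u v (hH huv)
  two v := by
    refine le_trans (Set.ncard_le_ncard ?_ (Set.toFinite _)) (h.two v)
    intro w hw
    exact ⟨hH hw.1, hw.2⟩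
  l1 u v huv := h.l1 u v (hH huv)
  l2 u v huv := h.l2 u v (hH huv)

open Classical in
/-- Removing the edges at an independent set `S` of vertices of small degree. -/
theorem red_low [Fintype V] {D : V → Prop} {Δ : ℕ} {L : Sym2 V → Finset ℕ} {H : SimpleGraph V}
    (hs : Sys D Δ L H) (S : V → Prop) (t : ℕ) (hS1 : ∀ x, S x → dg H x ≤ t)
    (hS2 : ∀ u v, H.Adj u v → S u → ¬ S v)
    (hF : ∀ x y, S x → H.Adj x y →
      dg H y + t + 2 ≤ (univ.filter (fun w => H.Adj y w ∧ S w)).card + Δ)
    (A : SimpleGraph V) (hA : ∀ a b, A.Adj a b ↔ H.Adj a b ∧ ¬ S a ∧ ¬ S b)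
    (c : Sym2 V → ℕ) (hc : Ok A L c) : ∃ c', Ok H L c' := by
  let A2 : SimpleGraph V :=
    { Adj := fun a b => H.Adj a b ∧ ¬ (S a ∧ ¬ D a) ∧ ¬ (S b ∧ ¬ D b)
      symm := ⟨fun a b h => ⟨h.1.symm, h.2.2, h.2.1⟩⟩
      loopless := ⟨fun a h => H.loopless.irrefl a h.1⟩ }
  have hA2 : ∀ a b, A2.Adj a b ↔ H.Adj a b ∧ ¬ (S a ∧ ¬ D a) ∧ ¬ (S b ∧ ¬ D b) :=
    fun _ _ => Iff.rfl
  have hAA2 : A ≤ A2 := by
    intro a b h
    rw [hA] at h
    exact ⟨h.1, fun h' => h.2.1 h'.1, fun h' => h.2.2 h'.1⟩
  have hA2H : A2 ≤ H := fun a b h => h.1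
  -- degrees in `A2`
  have hsplit : ∀ y, (univ.filter (fun w => H.Adj y w ∧ ¬ S w)).card +
      (univ.filter (fun w => H.Adj y w ∧ S w)).card = dg H y := by
    intro y
    rw [dg_eq, ← card_union_of_disjoint]
    · congr 1
      ext w
      simp only [mem_union, mem_filter, mem_univ, true_and]
      tauto
    · rw [disjoint_left]
      intro w h1 h2
      rw [mem_filter] at h1 h2
      exact h1.2.2 h2.2.2
  have hdA2 : ∀ y, dg A2 y ≤ (univ.filter (fun w => H.Adj y w ∧ ¬ S w)).card +
      (univ.filter (fun w => H.Adj y w ∧ D w)).card := by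
    intro y
    rw [dg_eq]
    refine (card_le_card ?_).trans (card_union_le _ _)
    intro w hw
    rw [mem_filter, hA2] at hw
    rw [mem_union, mem_filter, mem_filter]
    by_cases hSw : S w
    · right
      refine ⟨mem_univ _, hw.2.1, ?_⟩
      by_contra hD
      exact hw.2.2.2 ⟨hSw, hD⟩
    · exact Or.inl ⟨mem_univ _, hw.2.1, hSw⟩
  have hr2 : ∀ y, (univ.filter (fun w => H.Adj y w ∧ D w)).card ≤ 2 := by
    intro y
    have h := hs.two y
    rwa [show {w | H.Adj y w ∧ D w} = ↑(univ.filter (fun w => H.Adj y w ∧ D w)) by ext w; simp,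
      Set.ncard_coe_finset] at h
  have hr0 : ∀ y, D y → (univ.filter (fun w => H.Adj y w ∧ D w)).card = 0 := by
    intro y hy
    rw [card_eq_zero, filter_eq_empty_iff]
    rintro w - ⟨h1, h2⟩
    exact hs.indep y w h1 hy h2
  -- first stage
  have st1 : ∃ c1, Ok A2 L c1 := by
    refine ext_greedy A A2 hAA2 L ?_ c hc
    have aux : ∀ a b, A2.Adj a b → S a → dg A2 a + dg A2 b ≤ (L s(a, b)).card + 1 := by
      intro a b hab hSa
      have hH : H.Adj a b := hab.1
      have hDa : D a := by
        by_contra hD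
        exact hab.2.1 ⟨hSa, hD⟩
      have h1 : dg A2 a ≤ t := (dg_mono hA2H a).trans (hS1 a hSa)
      have h2 := hdA2 b
      have h3 := hsplit b
      have h4 := hF a b hSa hH
      have h5 := hr2 b
      have h6 := hs.l1 a b hH
      omega
    intro a b hab hnab
    rw [hA] at hnab
    push Not at hnab
    by_cases hSa : S a
    · exact aux a b hab hSa
    · have hSb : S b := by
        by_contra hSb
        exact hSb (hnab hab.1 hSa)
      have := aux b a hab.symm hSb
      rw [Sym2.eq_swap] at this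
      omega
  obtain ⟨c1, hc1⟩ := st1
  -- second stage
  refine ext A2 H hA2H S ?_ L ?_ c1 hc1
  · intro u v huv hn
    rw [hA2] at hn
    push Not at hn
    constructor
    · exact hS2 u v huv
    · intro hSv
      by_contra hSu
      exact hSv (hn huv (fun h => absurd h hSu)).1
  · intro u v huv hn
    have h6 := hs.l1 u v huv
    by_cases hu : S u ∧ ¬ D u
    · have hSv : ¬ S v := hS2 u v huv hu.1
      have h1 : dg H u ≤ t := hS1 u hu.1
      have h2 := hdA2 v
      have h3 := hsplit v
      have h4 := hF u v hu.1 huv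
      have h5 := hr2 v
      by_cases hDv : D v
      · have h7 := hr0 v hDv
        omega
      · have h7 := hs.l2 u v huv hu.2 hDv
        omega
    · have hv : S v ∧ ¬ D v := by
        rw [hA2] at hn
        push Not at hn
        have := hn huv (fun h => by
          by_contra hD
          exact hu ⟨h, hD⟩)
        exact this
      have h1 : dg A2 v = 0 := by
        rw [dg_eq, card_eq_zero, filter_eq_empty_iff]
        rintro w - hw
        exact hw.2.1 hv
      by_cases hDu : D u
      · have h7 := hs.degD u hDu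
        omega
      · have h7 := hs.l2 u v huv hDu hv.2
        have h8 := hs.deg u
        omega

/-- In a minimal graph that cannot be coloured, the ends of an edge have large degrees. -/
theorem edge_low [Fintype V] {D : V → Prop} {Δ : ℕ} {L : Sym2 V → Finset ℕ} {H : SimpleGraph V}
    (hs : Sys D Δ L H) (hno : ¬ ∃ c, Ok H L c) (hmin : ∀ A : SimpleGraph V, A < H → ∃ c, Ok A L c)
    {u v : V} (huv : H.Adj u v) : Δ + 1 ≤ dg H u + dg H v := by
  by_contra hcon
  push Not at hcon
  have hle : H.deleteEdges {s(u, v)} ≤ H := SimpleGraph.deleteEdges_le _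
  have hlt : H.deleteEdges {s(u, v)} < H := by
    refine lt_of_le_of_ne hle ?_
    intro heq
    have : (H.deleteEdges {s(u, v)}).Adj u v := by rw [heq]; exact huv
    rw [SimpleGraph.deleteEdges_adj] at this
    exact this.2 rfl
  obtain ⟨c, hc⟩ := hmin _ hlt
  refine hno (ext_greedy _ H hle L ?_ c hc)
  intro a b hab hnab
  rw [SimpleGraph.deleteEdges_adj] at hnab
  push Not at hnab
  have h4 := hnab hab
  rw [Set.mem_singleton_iff, Sym2.eq_iff] at h4
  have h5 := hs.l1 a b hab
  rcases h4 with ⟨rfl, rfl⟩ | ⟨rfl, rfl⟩ <;> omega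

open Classical in
/-- A graph whose degrees are at most `2 (Δ - 1) / 3` can be coloured. -/
theorem max_low [Fintype V] {D : V → Prop} {Δ : ℕ} {L : Sym2 V → Finset ℕ} {H : SimpleGraph V}
    (hs : Sys D Δ L H) (hno : ¬ ∃ c, Ok H L c) (hmin : ∀ A : SimpleGraph V, A < H → ∃ c, Ok A L c)
    (M : ℕ) (hM : ∀ v, dg H v ≤ M) (h3 : 3 * M + 2 ≤ 2 * Δ) : False := by
  obtain ⟨X, hX0⟩ := cut H
  have hX : ∀ u, (univ.filter (fun v => H.Adj u v ∧ (X u ↔ X v))).card ≤
      (univ.filter (fun v => H.Adj u v ∧ ¬ (X u ↔ X v))).card := by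
    intro u
    refine le_of_eq_of_le ?_ (le_of_le_of_eq (hX0 u) ?_)
    · congr
    · congr
  let A : SimpleGraph V :=
    { Adj := fun a b => H.Adj a b ∧ (X a ↔ X b)
      symm := ⟨fun a b h => ⟨h.1.symm, h.2.symm⟩⟩
      loopless := ⟨fun a h => H.loopless.irrefl a h.1⟩ }
  have hA : ∀ a b, A.Adj a b ↔ H.Adj a b ∧ (X a ↔ X b) := fun _ _ => Iff.rfl
  have hle : A ≤ H := fun a b h => h.1
  have hsplit : ∀ y, (univ.filter (fun v => H.Adj y v ∧ (X y ↔ X v))).card +
      (univ.filter (fun v => H.Adj y v ∧ ¬ (X y ↔ X v))).card = dg H y := by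
    intro y
    rw [dg_eq, ← card_union_of_disjoint]
    · congr 1
      ext w
      simp only [mem_union, mem_filter, mem_univ, true_and]
      tauto
    · rw [disjoint_left]
      intro w h1 h2
      rw [mem_filter] at h1 h2
      exact h2.2.2 h1.2.2
  have hdA : ∀ y, dg A y = (univ.filter (fun v => H.Adj y v ∧ (X y ↔ X v))).card := by
    intro y
    rw [dg_eq]
  have hlt : A < H := by
    refine lt_of_le_of_ne hle ?_
    intro heq
    have hne : H ≠ ⊥ := by
      rintro rfl
      exact hno ⟨fun _ => 0, fun u v h => absurd h (by simp), fun u v w h => absurd h (by simp)⟩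
    obtain ⟨u, v, huv⟩ : ∃ u v, H.Adj u v := by
      by_contra hcon
      push Not at hcon
      apply hne
      ext u v
      simp [hcon u v]
    have h1 := hX u
    have h2 := hsplit u
    have h4 : dg A u = dg H u := by rw [heq]
    rw [hdA u] at h4
    have h5 : 0 < dg H u := by
      rw [dg_eq]
      exact card_pos.2 ⟨v, by simpa using huv⟩
    omega
  obtain ⟨c, hc⟩ := hmin A hlt
  refine hno (ext A H hle X ?_ L ?_ c hc)
  · intro u v huv hn
    rw [hA] at hn
    push Not at hn
    have := hn huv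
    tauto
  · intro u v huv _
    have h1 := hX v
    have h2 := hsplit v
    have h4 := hdA v
    have h5 := hM u
    have h6 := hM v
    have h7 := hs.l1 u v huv
    omega

/-- Reduction to minimal graphs without a colouring. -/
theorem by_min [Fintype V] {D : V → Prop} {Δ : ℕ} {L : Sym2 V → Finset ℕ} {G : SimpleGraph V}
    (hs : Sys D Δ L G)
    (h : ∀ H : SimpleGraph V, H ≤ G → Sys D Δ L H → (¬ ∃ c, Ok H L c) →
      (∀ A : SimpleGraph V, A < H → ∃ c, Ok A L c) → False) : ∃ c, Ok G L c := by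
  by_contra hcon
  have hfin : {H : SimpleGraph V | H ≤ G ∧ ¬ ∃ c, Ok H L c}.Finite := Set.toFinite _
  obtain ⟨H, hH, hmin⟩ := hfin.exists_minimal ⟨G, le_rfl, hcon⟩
  refine h H hH.1 (hs.mono hH.1) hH.2 ?_
  intro A hA
  by_contra hno
  have := hmin (y := A) ⟨hA.le.trans hH.1, hno⟩ hA.le
  exact absurd this (not_le_of_gt hA)

/-- Every vertex of degree more than `k` has few neighbours of degree more than `k`. -/
theorem list_local [Fintype V] {D : V → Prop} {Δ : ℕ} {L : Sym2 V → Finset ℕ} {G : SimpleGraph V}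
    (hs : Sys D Δ L G) (k : ℕ) (h2 : 2 * k ≤ Δ) (h3 : Δ ≤ 3 * k + 4)
    (hk : ∀ v, k < dg G v → {w | G.Adj v w ∧ k < dg G w}.ncard + k + 2 ≤ Δ) :
    ∃ c, Ok G L c := by
  classical
  refine by_min hs ?_
  intro H hHG hs hno hmin
  have hkH : ∀ v, k < dg H v → (univ.filter (fun w => H.Adj v w ∧ ¬ dg H w ≤ k)).card + k + 2
      ≤ Δ := by
    intro v hv
    have h := hk v (lt_of_lt_of_le hv (dg_mono hHG v))
    have h1 : (univ.filter (fun w => H.Adj v w ∧ ¬ dg H w ≤ k)).card ≤
        {w | G.Adj v w ∧ k < dg G w}.ncard := by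
      rw [← Set.ncard_coe_finset]
      refine Set.ncard_le_ncard ?_ (Set.toFinite _)
      intro w hw
      have hw' := (mem_filter.1 (mem_coe.1 hw)).2
      exact ⟨hHG hw'.1, lt_of_lt_of_le (not_le.1 hw'.2) (dg_mono hHG w)⟩
    omega
  have hsplit : ∀ y, (univ.filter (fun w => H.Adj y w ∧ ¬ dg H w ≤ k)).card +
      (univ.filter (fun w => H.Adj y w ∧ dg H w ≤ k)).card = dg H y := by
    intro y
    rw [dg_eq, ← card_union_of_disjoint]
    · congr 1
      ext w
      simp only [mem_union, mem_filter, mem_univ, true_and]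
      tauto
    · rw [disjoint_left]
      intro w h1 h2
      rw [mem_filter] at h1 h2
      exact h1.2.2 h2.2.2
  have hind : ∀ u v, H.Adj u v → dg H u ≤ k → ¬ dg H v ≤ k := by
    intro u v huv hu hv
    have := edge_low hs hno hmin huv
    omega
  by_cases hex : ∃ u v, H.Adj u v ∧ dg H u ≤ k
  · obtain ⟨u, v, huv, hu⟩ := hex
    let A : SimpleGraph V :=
      { Adj := fun a b => H.Adj a b ∧ ¬ dg H a ≤ k ∧ ¬ dg H b ≤ k
        symm := ⟨fun a b h => ⟨h.1.symm, h.2.2, h.2.1⟩⟩
        loopless := ⟨fun a h => H.loopless.irrefl a h.1⟩ }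
    have hlt : A < H := by
      refine lt_of_le_of_ne (fun a b h => h.1) ?_
      intro heq
      have : A.Adj u v := by rw [heq]; exact huv
      exact this.2.1 hu
    obtain ⟨c, hc⟩ := hmin A hlt
    refine hno (red_low hs (fun x => dg H x ≤ k) k (fun x hx => hx) hind ?_ A
      (fun _ _ => Iff.rfl) c hc)
    intro x y hx hxy
    have h5 := hind x y hxy hx
    have h6 := hkH y (not_le.1 h5)
    have h7 := hsplit y
    have h8 : dg H y + k + 2 ≤ (univ.filter (fun w => H.Adj y w ∧ dg H w ≤ k)).card + Δ := by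
      omega
    convert h8
  · push Not at hex
    have hM : ∀ v, dg H v ≤ Δ - k - 2 := by
      intro v
      rcases Nat.eq_zero_or_pos (dg H v) with h0 | h0
      · omega
      · have h5 : ∃ w, H.Adj v w := by
          rw [dg_eq] at h0
          obtain ⟨w, hw⟩ := card_pos.1 h0
          exact ⟨w, by simpa using hw⟩
        obtain ⟨w, hw⟩ := h5
        have h6 := hkH v (hex v w hw)
        have h7 := hsplit v
        have h8 : (univ.filter (fun w => H.Adj v w ∧ dg H w ≤ k)).card = 0 := by
          rw [card_eq_zero, filter_eq_empty_iff]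
          rintro w - ⟨h9, h10⟩
          have := hex w v h9.symm
          omega
        omega
    have hΔ : k + 2 ≤ Δ := by
      by_contra hcon
      have hne : ∃ u v, H.Adj u v := by
        by_contra hcon2
        push Not at hcon2
        exact hno ⟨fun _ => 0, fun u v h => absurd h (hcon2 u v),
          fun u v w h => absurd h (hcon2 u v)⟩
      obtain ⟨u, v, huv⟩ := hne
      have h6 := hkH u (hex u v huv)
      omega
    exact max_low hs hno hmin (Δ - k - 2) hM (by omega)

end Pool.Agent.R61.TotExt
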