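import Mathlib
import Pool.Agent.R61.TotList

/-!
# List edge colourings of sparse graphs with slightly short lists around a sparse set
-/

set_option autoImplicit false

namespace Pool.Agent.R61.TotExt

open Finset Pool.Agent.TH559.LE

variable {V : Type}

theorem sum_gauss (j : ℕ) : 2 * ∑ t ∈ Icc 1 j, (t + 1) = j * (j + 3) := by
  induction j with
  | zero => simp
  | succ j ih =>
    rw [sum_Icc_succ_top (by omega), mul_add, ih]
    ring

/-- The arithmetic of the discharging. -/
theorem arith (k Δ d : ℕ) (hk : 1 ≤ k) (hΔ : k * k + 5 * k + 2 ≤ 2 * Δ) (hd : d ≤ Δ)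
    (hkd : k + 1 ≤ d) (g : ℕ → ℕ) (hg : ∀ t, g t = 0 ∨ g t + Δ ≤ d + t + 1) :
    ∑ t ∈ Icc 1 k, g t + (k + 1) ≤ d := by
  by_cases hcase : d + k + 1 < Δ
  · have h0 : ∑ t ∈ Icc 1 k, g t = 0 := by
      apply sum_eq_zero
      intro t ht
      rw [mem_Icc] at ht
      rcases hg t with h | h
      · exact h
      · omega
    omega
  · obtain ⟨j, rfl⟩ : ∃ j, k = j + 1 := ⟨k - 1, by omega⟩
    rw [sum_Icc_succ_top (by omega)]
    have h1 : ∑ t ∈ Icc 1 j, g t ≤ ∑ t ∈ Icc 1 j, (t + 1) := by
      apply sum_le_sum
      intro t ht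
      rcases hg t with h | h <;> omega
    have h2 := sum_gauss j
    have h3 := hg (j + 1)
    have h4 : (j + 1) * (j + 1) + 5 * (j + 1) + 2 = j * (j + 3) + 4 * j + 8 := by ring
    omega

open Classical in
/-- The masters of the vertices of small degree. -/
theorem masters [Fintype V] {D : V → Prop} {Δ : ℕ} {L : Sym2 V → Finset ℕ} {H : SimpleGraph V}
    (hs : Sys D Δ L H) (hno : ¬ ∃ c, Ok H L c) (hmin : ∀ A : SimpleGraph V, A < H → ∃ c, Ok A L c)
    (t : ℕ) (h2 : 2 * t ≤ Δ) (S : Finset V) (hS : ∀ x ∈ S, 1 ≤ dg H x ∧ dg H x ≤ t) :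
    ∃ m : V → V, (∀ x ∈ S, H.Adj x (m x)) ∧ ∀ y, (S.filter (fun x => m x = y)).card = 0 ∨
      (S.filter (fun x => m x = y)).card + Δ ≤ dg H y + t + 1 := by
  induction S using Finset.strongInduction with
  | H S ih =>
    by_cases hne : S = ∅
    · subst hne
      exact ⟨id, by simp, by simp⟩
    · obtain ⟨x0, hx0⟩ := nonempty_iff_ne_empty.2 hne
      -- a master
      obtain ⟨x, y, hx, hxy, hy⟩ : ∃ x y, x ∈ S ∧ H.Adj x y ∧
          (univ.filter (fun w => H.Adj y w ∧ w ∈ S)).card + Δ < dg H y + t + 2 := by
        by_contra hcon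
        push Not at hcon
        let A : SimpleGraph V :=
          { Adj := fun a b => H.Adj a b ∧ ¬ a ∈ S ∧ ¬ b ∈ S
            symm := ⟨fun a b h => ⟨h.1.symm, h.2.2, h.2.1⟩⟩
            loopless := ⟨fun a h => H.loopless.irrefl a h.1⟩ }
        have hlt : A < H := by
          refine lt_of_le_of_ne (fun a b h => h.1) ?_
          intro heq
          have h1 := (hS x0 hx0).1
          rw [dg_eq] at h1
          obtain ⟨w, hw⟩ := card_pos.1 h1
          have hw' : H.Adj x0 w := by simpa using hw
          have : A.Adj x0 w := by rw [heq]; exact hw'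
          exact this.2.1 hx0
        obtain ⟨c, hc⟩ := hmin A hlt
        refine hno (red_low hs (fun x => x ∈ S) t (fun x hx => (hS x hx).2) ?_ ?_ A
          (fun _ _ => Iff.rfl) c hc)
        · intro u v huv hu hv
          have h1 := edge_low hs hno hmin huv
          have h2 := (hS u hu).2
          have h3 := (hS v hv).2
          omega
        · intro x y hx hxy
          refine le_of_le_of_eq (hcon x y hx hxy) ?_
          congr!
      obtain ⟨m, hm1, hm2⟩ := ih (S.filter (fun w => ¬ H.Adj y w)) (by
        rw [Finset.ssubset_iff_subset_ne]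
        refine ⟨filter_subset _ _, ?_⟩
        intro heq
        rw [← heq, mem_filter] at hx
        exact hx.2 hxy.symm) (fun w hw => hS w (mem_filter.1 hw).1)
      refine ⟨fun w => if H.Adj y w then y else m w, ?_, ?_⟩
      · intro w hw
        by_cases hyw : H.Adj y w
        · simp only [if_pos hyw]
          exact hyw.symm
        · simp only [if_neg hyw]
          exact hm1 w (mem_filter.2 ⟨hw, hyw⟩)
      · intro z
        by_cases hz : z = y
        · right
          subst hz
          have hsub : S.filter (fun w => (if H.Adj z w then z else m w) = z) ⊆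
              univ.filter (fun w => H.Adj z w ∧ w ∈ S) := by
            intro w hw
            rw [mem_filter] at hw
            rw [mem_filter]
            refine ⟨mem_univ _, ?_, hw.1⟩
            by_contra hzw
            have h3 := hw.2
            rw [if_neg hzw] at h3
            have h4 := hm1 w (mem_filter.2 ⟨hw.1, hzw⟩)
            rw [h3] at h4
            exact hzw h4.symm
          have h5 := card_le_card hsub
          show (S.filter (fun w => (if H.Adj z w then z else m w) = z)).card + Δ ≤ _
          omega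
        · have hsub : S.filter (fun w => (if H.Adj y w then y else m w) = z) =
              (S.filter (fun w => ¬ H.Adj y w)).filter (fun w => m w = z) := by
            ext w
            simp only [mem_filter]
            by_cases hyw : H.Adj y w
            · constructor
              · rintro ⟨-, h3⟩
                rw [if_pos hyw] at h3
                exact absurd h3.symm hz
              · rintro ⟨⟨-, h3⟩, -⟩
                exact absurd hyw h3
            · rw [if_neg hyw]
              tauto
          rw [hsub]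
          exact hm2 z

open Classical in
/-- Sparse graphs of large maximum degree. -/
theorem list_sparse [Fintype V] {D : V → Prop} {Δ : ℕ} {L : Sym2 V → Finset ℕ} {G : SimpleGraph V}
    (hs : Sys D Δ L G) (k : ℕ) (hk : 1 ≤ k) (hΔ : k * k + 5 * k + 2 ≤ 2 * Δ)
    (hsp : ∀ A : Finset V, A.Nonempty →
      ∑ v ∈ A, (A.filter (fun w => G.Adj v w)).card < (k + 1) * A.card) :
    ∃ c, Ok G L c := by
  refine by_min hs ?_
  intro H hHG hs hno hmin
  have h2k : 2 * k ≤ Δ := by nlinarith
  have hlow : ∀ x y, H.Adj x y → dg H x ≤ k → k + 1 ≤ dg H y := by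
    intro x y hxy hx
    have := edge_low hs hno hmin hxy
    omega
  have hm : ∀ t : ℕ, ∃ m : V → V, t ≤ k → (∀ x, 1 ≤ dg H x → dg H x ≤ t → H.Adj x (m x)) ∧
      ∀ y, ((univ.filter (fun x => 1 ≤ dg H x ∧ dg H x ≤ t)).filter (fun x => m x = y)).card = 0 ∨
      ((univ.filter (fun x => 1 ≤ dg H x ∧ dg H x ≤ t)).filter (fun x => m x = y)).card + Δ ≤
        dg H y + t + 1 := by
    intro t
    by_cases ht : t ≤ k
    · obtain ⟨m, h1, h2⟩ := masters hs hno hmin t (by omega)
        (univ.filter (fun x => 1 ≤ dg H x ∧ dg H x ≤ t)) (fun x hx => (mem_filter.1 hx).2)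
      exact ⟨m, fun _ => ⟨fun x hx1 hx2 => h1 x (mem_filter.2 ⟨mem_univ _, hx1, hx2⟩), h2⟩⟩
    · exact ⟨id, fun h => absurd h ht⟩
  choose m hm using hm
  set low : Finset V := univ.filter (fun x => 1 ≤ dg H x ∧ dg H x ≤ k) with hlowdef
  set high : Finset V := univ.filter (fun x => k + 1 ≤ dg H x) with hhighdef
  set g : ℕ → V → ℕ := fun t y => if t ≤ k then
    ((univ.filter (fun x => 1 ≤ dg H x ∧ dg H x ≤ t)).filter (fun x => m t x = y)).card else 0
    with hgdef
  -- the high vertices
  have e1 : ∀ y ∈ high, ∑ t ∈ Icc 1 k, g t y + (k + 1) ≤ dg H y := by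
    intro y hy
    refine arith k Δ (dg H y) hk hΔ (hs.deg y) (mem_filter.1 hy).2 (fun t => g t y) ?_
    intro t
    simp only [hgdef]
    by_cases ht : t ≤ k
    · rw [if_pos ht]
      exact (hm t ht).2 y
    · rw [if_neg ht]
      exact Or.inl rfl
  -- double counting
  have e2 : ∑ y ∈ high, ∑ t ∈ Icc 1 k, g t y = ∑ x ∈ low, (k + 1 - dg H x) := by
    rw [sum_comm]
    have e3 : ∀ t ∈ Icc 1 k, ∑ y ∈ high, g t y =
        ∑ x ∈ low, if dg H x ≤ t then 1 else 0 := by
      intro t ht
      rw [mem_Icc] at ht
      have e4 : ∀ y ∈ high, g t y = ((univ.filter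
          (fun x => 1 ≤ dg H x ∧ dg H x ≤ t)).filter (fun x => m t x = y)).card := by
        intro y _
        simp only [hgdef]
        rw [if_pos ht.2]
      have e10 : (univ.filter (fun x => 1 ≤ dg H x ∧ dg H x ≤ t)).card =
          ∑ y ∈ high, ((univ.filter
            (fun x => 1 ≤ dg H x ∧ dg H x ≤ t)).filter (fun x => m t x = y)).card := by
        have h6 := card_eq_sum_card_fiberwise (f := m t)
          (s := univ.filter (fun x => 1 ≤ dg H x ∧ dg H x ≤ t)) (t := high) (by
            intro x hx
            have hx' := (mem_filter.1 (mem_coe.1 hx)).2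
            have h5 := (hm t ht.2).1 x hx'.1 hx'.2
            rw [mem_coe, hhighdef, mem_filter]
            exact ⟨mem_univ _, hlow x _ h5 (by omega)⟩)
        rw [h6]
      rw [sum_congr rfl e4, ← e10, ← sum_filter, sum_const, smul_eq_mul, mul_one]
      congr 1
      ext x
      simp only [hlowdef, mem_filter, mem_univ, true_and]
      constructor
      · rintro ⟨h1, h2⟩
        exact ⟨⟨h1, by omega⟩, h2⟩
      · rintro ⟨⟨h1, h2⟩, h3⟩
        exact ⟨h1, h3⟩
    rw [sum_congr rfl e3, sum_comm]
    apply sum_congr rfl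
    intro x hx
    have hx' := (mem_filter.1 hx).2
    rw [← sum_filter, sum_const, smul_eq_mul, mul_one]
    have : (Icc 1 k).filter (fun t => dg H x ≤ t) = Icc (dg H x) k := by
      ext t
      simp only [mem_filter, mem_Icc]
      omega
    rw [this, Nat.card_Icc]
  have e5 : (k + 1) * high.card + ∑ x ∈ low, (k + 1 - dg H x) ≤ ∑ y ∈ high, dg H y := by
    have := sum_le_sum e1
    rw [sum_add_distrib, e2, sum_const, smul_eq_mul] at this
    rw [mul_comm]
    omega
  have e6 : (k + 1) * low.card = ∑ x ∈ low, (k + 1 - dg H x) + ∑ x ∈ low, dg H x := by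
    rw [← sum_add_distrib, mul_comm, ← smul_eq_mul, ← sum_const]
    apply sum_congr rfl
    intro x hx
    have hx' := (mem_filter.1 hx).2
    omega
  have hdisj : Disjoint low high := by
    rw [disjoint_left]
    intro x h1 h2
    rw [hlowdef, mem_filter] at h1
    rw [hhighdef, mem_filter] at h2
    omega
  have e7 : (k + 1) * (low ∪ high).card ≤ ∑ x ∈ low ∪ high, dg H x := by
    rw [card_union_of_disjoint hdisj, sum_union hdisj, mul_add]
    omega
  have hmem : ∀ x, x ∈ low ∪ high ↔ 1 ≤ dg H x := by
    intro x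
    simp only [hlowdef, hhighdef, mem_union, mem_filter, mem_univ, true_and]
    omega
  have hadj : ∀ x y, H.Adj x y → 1 ≤ dg H x := by
    intro x y hxy
    rw [dg_eq]
    exact card_pos.2 ⟨y, by simpa using hxy⟩
  have hne : (low ∪ high).Nonempty := by
    by_contra hcon
    rw [not_nonempty_iff_eq_empty] at hcon
    apply hno
    refine ⟨fun _ => 0, ?_, ?_⟩
    · intro u v huv
      have := (hmem u).2 (hadj u v huv)
      rw [hcon] at this
      exact absurd this (notMem_empty u)
    · intro u v w huv
      have := (hmem u).2 (hadj u v huv)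
      rw [hcon] at this
      exact absurd this (notMem_empty u)
  have e8 := hsp _ hne
  have e9 : ∑ x ∈ low ∪ high, dg H x ≤
      ∑ v ∈ low ∪ high, ((low ∪ high).filter (fun w => G.Adj v w)).card := by
    apply sum_le_sum
    intro x _
    rw [dg_eq]
    apply card_le_card
    intro w hw
    have hw' : H.Adj x w := by simpa using hw
    rw [mem_filter]
    exact ⟨(hmem w).2 (hadj w x hw'.symm), hHG hw'⟩
  omega

end Pool.Agent.R61.TotExt
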