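import Mathlib
import Pool.Agent.R61.TotExt
import Pool.Agent.R61.TotSparse

/-!
# The lists left by a precoloured matching
-/

set_option autoImplicit false

namespace Pool.Agent.R61.TotExt

open Finset Pool.Agent.TH559.LE

open Classical in
/-- The number of colours that remain for an edge. -/
theorem lcard {V : Type} [Fintype V] (H : SimpleGraph V) {K : ℕ}
    (hmatch : ∀ u v w, H.Adj u v → H.Adj u w → v = w) (f : V → Fin K) (g0 : Sym2 V → Fin K)
    (S : Finset ℕ) (u v : V)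
    (hS : ∀ γ : ℕ, γ ∈ S ↔ (γ < K ∧ γ ≠ (f u).1 ∧ γ ≠ (f v).1 ∧
        (∀ x, H.Adj u x → γ ≠ (g0 s(u, x)).1) ∧ ∀ x, H.Adj v x → γ ≠ (g0 s(v, x)).1)) :
    K ≤ S.card + 2 + (if ∃ x, H.Adj u x then 1 else 0) + (if ∃ x, H.Adj v x then 1 else 0) := by
  set N : V → Finset ℕ := fun u =>
    (univ.filter (fun x => H.Adj u x)).image (fun x => (g0 s(u, x)).1) with hN
  have hNc : ∀ u, (N u).card ≤ (if ∃ x, H.Adj u x then 1 else 0) := by
    intro u
    refine card_image_le.trans ?_
    by_cases h : ∃ x, H.Adj u x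
    · rw [if_pos h, card_le_one]
      intro a ha b hb
      rw [mem_filter] at ha hb
      exact hmatch u a b ha.2 hb.2
    · rw [if_neg h, Nat.le_zero, card_eq_zero, filter_eq_empty_iff]
      intro x _ hx
      exact h ⟨x, hx⟩
  have hsub : range K ⊆ ((S ∪ {(f u).1, (f v).1}) ∪ N u) ∪ N v := by
    intro γ hγ
    rw [mem_range] at hγ
    simp only [mem_union, mem_insert, mem_singleton, hN, mem_image, mem_filter, mem_univ,
      true_and]
    by_contra hcon
    push Not at hcon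
    obtain ⟨⟨⟨h1, h2, h3⟩, h4⟩, h5⟩ := hcon
    apply h1
    rw [hS]
    exact ⟨hγ, h2, h3, fun x hx => (h4 x hx).symm, fun x hx => (h5 x hx).symm⟩
  have h1 := card_le_card hsub
  rw [card_range] at h1
  have h2 := card_union_le ((S ∪ {(f u).1, (f v).1}) ∪ N u) (N v)
  have h3 := card_union_le (S ∪ {(f u).1, (f v).1}) (N u)
  have h4 := card_union_le S {(f u).1, (f v).1}
  have h5 : ({(f u).1, (f v).1} : Finset ℕ).card ≤ 2 := card_le_two
  have h6 := hNc u
  have h7 := hNc v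
  omega

/-- The colouring of the matching extends if the edges outside it can be coloured from suitable
lists. -/
theorem dist3 {V : Type} [Fintype V] (G H : SimpleGraph V) (Δ : ℕ)
    (hΔ : ∀ v, (G.neighborSet v).ncard ≤ Δ) (hHG : H ≤ G)
    (hmatch : ∀ u v w, H.Adj u v → H.Adj u w → v = w)
    (hdist : ∀ u v x y, H.Adj u v → H.Adj x y → s(u, v) ≠ s(x, y) → 3 ≤ G.edist u x)
    (f0 : V → Fin (Δ + 2)) (g0 : Sym2 V → Fin (Δ + 2)) (h0 : IsTotal H f0 g0)
    (key : ∀ L : Sym2 V → Finset ℕ, Sys (fun v => ∃ x, H.Adj v x) Δ L (G \ H) →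
      ∃ c, Ok (G \ H) L c) :
    ∃ (f : V → Fin (Δ + 2)) (g : Sym2 V → Fin (Δ + 2)), IsTotal G f g ∧
      ∀ u v, H.Adj u v → f u = f0 u ∧ g s(u, v) = g0 s(u, v) := by
  classical
  have hΔ' : ∀ v, dg G v ≤ Δ := hΔ
  -- covered vertices that are adjacent form an edge of the matching
  have hA : ∀ u v, G.Adj u v → (∃ x, H.Adj u x) → (∃ y, H.Adj v y) → H.Adj u v := by
    rintro u v huv ⟨x, hx⟩ ⟨y, hy⟩
    by_contra hn
    have hne : s(u, x) ≠ s(v, y) := by
      intro h
      rw [Sym2.eq_iff] at h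
      rcases h with ⟨h1, h2⟩ | ⟨h1, h2⟩
      · exact huv.ne h1
      · subst h2
        exact hn hx
    have h3 := hdist u x v y hx hy hne
    have h4 : G.edist u v ≤ 1 := by
      have := SimpleGraph.edist_le (SimpleGraph.Walk.cons huv SimpleGraph.Walk.nil)
      simpa using this
    have h5 : (3 : ℕ∞) ≤ 1 := h3.trans h4
    exact absurd h5 (by decide)
  have hB : ∀ u v w, G.Adj w u → G.Adj w v → (∃ x, H.Adj u x) → (∃ y, H.Adj v y) → u ≠ v →
      H.Adj u v := by
    rintro u v w hwu hwv ⟨x, hx⟩ ⟨y, hy⟩ huv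
    by_contra hn
    have hne : s(u, x) ≠ s(v, y) := by
      intro h
      rw [Sym2.eq_iff] at h
      rcases h with ⟨h1, h2⟩ | ⟨h1, h2⟩
      · exact huv h1
      · subst h2
        exact hn hx
    have h3 := hdist u x v y hx hy hne
    have h4 : G.edist u v ≤ 2 := by
      have := SimpleGraph.edist_le (SimpleGraph.Walk.cons hwu.symm
        (SimpleGraph.Walk.cons hwv SimpleGraph.Walk.nil))
      simpa using this
    have h5 : (3 : ℕ∞) ≤ 2 := h3.trans h4
    exact absurd h5 (by decide)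
  have hprop : ∀ u v, (∃ x, H.Adj u x) → (∃ y, H.Adj v y) → G.Adj u v → f0 u ≠ f0 v :=
    fun u v hu hv huv => h0.1 u v (hA u v huv hu hv)
  obtain ⟨f, hf1, hf2⟩ := vext G f0 (fun v => ∃ x, H.Adj v x) hprop
    (fun v => by have := hΔ' v; omega)
  refine core G H hHG hmatch f0 g0 h0 hprop f hf1 hf2 ?_
  intro L hL
  apply key
  have hLc : ∀ u v, (G \ H).Adj u v → Δ + 2 ≤ (L s(u, v)).card + 2 +
      (if ∃ x, H.Adj u x then 1 else 0) + (if ∃ x, H.Adj v x then 1 else 0) :=
    fun u v huv => lcard H hmatch f g0 (L s(u, v)) u v (hL u v huv)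
  refine ⟨?_, ?_, ?_, ?_, ?_, ?_⟩
  · intro v
    exact (dg_mono sdiff_le v).trans (hΔ' v)
  · rintro v ⟨x, hx⟩
    have h1 : dg (G \ H) v < dg G v := dg_lt sdiff_le (hHG hx) (fun h => h.2 hx)
    have := hΔ' v
    omega
  · intro u v huv hu hv
    exact huv.2 (hA u v huv.1 hu hv)
  · intro v
    by_cases hex : ∃ w, (G \ H).Adj v w ∧ ∃ x, H.Adj w x
    · obtain ⟨w, hvw, x, hwx⟩ := hex
      refine le_trans (Set.ncard_le_ncard (t := {w, x}) ?_ (Set.toFinite _))
        ((Set.ncard_insert_le w {x}).trans (by simp))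
      rintro z ⟨hvz, y, hzy⟩
      by_cases hzw : z = w
      · exact Or.inl hzw
      · right
        have h1 := hB w z v hvw.1 hvz.1 ⟨x, hwx⟩ ⟨y, hzy⟩ (Ne.symm hzw)
        exact hmatch w z x h1 hwx
    · have : {w | (G \ H).Adj v w ∧ ∃ x, H.Adj w x} = ∅ := by
        rw [Set.eq_empty_iff_forall_notMem]
        rintro w ⟨h1, h2⟩
        exact hex ⟨w, h1, h2⟩
      rw [this]
      simp
  · intro u v huv
    have h1 := hLc u v huv
    by_cases hu : ∃ x, H.Adj u x
    · have hv : ¬ ∃ x, H.Adj v x := fun hv => huv.2 (hA u v huv.1 hu hv)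
      rw [if_pos hu, if_neg hv] at h1
      omega
    · rw [if_neg hu] at h1
      have : (if ∃ x, H.Adj v x then 1 else 0) ≤ 1 := by split_ifs <;> omega
      omega
  · intro u v huv hu hv
    have h1 := hLc u v huv
    rw [if_neg hu, if_neg hv] at h1
    omega

end Pool.Agent.R61.TotExt
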