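import Mathlib
import Pool.Agent.R61.TotSys

/-!
# Bipartite graphs: list edge colourings in which some edges have shorter lists
-/

set_option autoImplicit false

namespace Pool.Agent.R61.TotExt

open Finset Pool.Agent.TH559.LE

open Classical in
/-- Galvin's argument for a given ranking of the edges. -/
theorem from_ranks {V : Type} [Fintype V] (E : Finset (V × V)) (c : V × V → ℕ)
    (hc1 : ∀ e ∈ E, ∀ f ∈ E, e.1 = f.1 ∨ e.2 = f.2 → c e = c f → e = f)
    (L : V × V → Finset ℕ)
    (hL : ∀ e ∈ E, (E.filter (fun f => f.1 = e.1 ∧ c e < c f)).card +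
        (E.filter (fun f => f.2 = e.2 ∧ c f < c e)).card < (L e).card) :
    ∃ φ : V × V → ℕ, ∀ e ∈ E, φ e ∈ L e ∧
      ∀ f ∈ E, f ≠ e → (f.1 = e.1 ∨ f.2 = e.2) → φ f ≠ φ e := by
  have tr : ∀ P : V × V → Prop, ((univ : Finset {e // e ∈ E}).filter (fun f => P f.1)).card =
      (E.filter P).card := by
    intro P
    refine Finset.card_bij (fun f _ => f.1) ?_ ?_ ?_
    · intro f hf
      rw [Finset.mem_filter] at hf ⊢
      exact ⟨f.2, hf.2⟩
    · intro a _ b _ h
      exact Subtype.ext h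
    · intro f hf
      rw [Finset.mem_filter] at hf
      exact ⟨⟨f, hf.1⟩, Finset.mem_filter.2 ⟨Finset.mem_univ _, hf.2⟩, rfl⟩
  obtain ⟨φ, hφ⟩ := galvin (α := {e // e ∈ E}) (fun e => e.1.1) (fun e => e.1.2)
    (fun e => c e.1) (fun e => c e.1)
    (fun e f h1 h2 => Subtype.ext (hc1 e.1 e.2 f.1 f.2 (Or.inl h1) h2))
    (fun e f h1 h2 => Subtype.ext (hc1 e.1 e.2 f.1 f.2 (Or.inr h1) h2))
    _ univ (fun e => L e.1) rfl (by
      intro e _
      refine lt_of_le_of_lt (le_of_eq ?_) (hL e.1 e.2)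
      refine congrArg₂ (· + ·) ?_ ?_
      · have h := tr (fun f => f.1 = e.1.1 ∧ c e.1 < c f)
        convert h
      · have h := tr (fun f => f.2 = e.1.2 ∧ c f < c e.1)
        convert h)
  refine ⟨fun e => if h : e ∈ E then φ ⟨e, h⟩ else 0, ?_⟩
  intro e he
  obtain ⟨h1, h2⟩ := hφ ⟨e, he⟩ (Finset.mem_univ _)
  simp only [dif_pos he]
  refine ⟨h1, fun f hf hfe hor => ?_⟩
  simp only [dif_pos hf]
  intro heq
  have := h2 ⟨f, hf⟩ (Finset.mem_univ _) (fun h => hfe (congrArg Subtype.val h)) heq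
  rcases hor with h | h
  · exact this.1 h
  · exact this.2 h

/-- A colouring of the pairs `(x, y)` with `x ∈ X` gives a colouring of the edges. -/
theorem of_pairs {V : Type} (G : SimpleGraph V) (X : V → Prop)
    (hX : ∀ u v, G.Adj u v → (X u ↔ ¬ X v)) (L : Sym2 V → Finset ℕ) (φ : V × V → ℕ)
    (h1 : ∀ x y, X x → G.Adj x y → φ (x, y) ∈ L s(x, y))
    (h2 : ∀ x y y', X x → G.Adj x y → G.Adj x y' → y ≠ y' → φ (x, y) ≠ φ (x, y'))
    (h3 : ∀ x x' y, X x → X x' → G.Adj x y → G.Adj x' y → x ≠ x' → φ (x, y) ≠ φ (x', y)) :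
    ∃ c, Ok G L c := by
  classical
  set c : Sym2 V → ℕ := fun z => if h : ∃ e : V × V, X e.1 ∧ G.Adj e.1 e.2 ∧ s(e.1, e.2) = z then
    φ (Classical.choose h) else 0 with hc
  have key : ∀ x y, X x → G.Adj x y → c s(x, y) = φ (x, y) := by
    intro x y hx hxy
    have hex : ∃ e : V × V, X e.1 ∧ G.Adj e.1 e.2 ∧ s(e.1, e.2) = s(x, y) :=
      ⟨(x, y), hx, hxy, rfl⟩
    simp only [hc]
    rw [dif_pos hex]
    obtain ⟨e1, e2, e3⟩ := Classical.choose_spec hex
    congr 1
    rw [Sym2.eq_iff] at e3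
    rcases e3 with e3 | e3
    · exact Prod.ext e3.1 e3.2
    · exfalso
      rw [e3.1] at e1
      exact (hX x y hxy).1 hx e1
  refine ⟨c, ?_, ?_⟩
  · intro u v huv
    by_cases hu : X u
    · rw [key u v hu huv]
      exact h1 u v hu huv
    · have hv : X v := by
        by_contra hv
        exact hu ((hX u v huv).2 hv)
      rw [Sym2.eq_swap, key v u hv huv.symm]
      exact h1 v u hv huv.symm
  · intro u v w huv huw hvw
    by_cases hu : X u
    · rw [key u v hu huv, key u w hu huw]
      exact h2 u v w hu huv huw hvw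
    · have hv : X v := by
        by_contra hv
        exact hu ((hX u v huv).2 hv)
      have hw : X w := by
        by_contra hw
        exact hu ((hX u w huw).2 hw)
      rw [Sym2.eq_swap, key v u hv huv.symm, Sym2.eq_swap (a := u) (b := w), key w u hw huw.symm]
      exact h3 v w u hv hw huv.symm huw.symm hvw

/-- Bipartite graphs with a matching `M` such that `G - M` has maximum degree at most `n`: the
lists need `n + 1` colours, and only `n` colours at vertices of `X` that are not covered by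
`M`. -/
theorem list_top {V : Type} [Fintype V] (G G0 M : SimpleGraph V) (hG : G0 ≤ G)
    (hMm : ∀ u v w, M.Adj u v → M.Adj u w → v = w)
    (X : V → Prop) (hX : ∀ u v, G.Adj u v → (X u ↔ ¬ X v)) (n : ℕ)
    (hn : ∀ v, dg (G \ M) v ≤ n) (L : Sym2 V → Finset ℕ)
    (hL1 : ∀ u v, G0.Adj u v → n ≤ (L s(u, v)).card)
    (hL2 : ∀ x y, X x → G0.Adj x y → n + 1 ≤ (L s(x, y)).card ∨
      ∀ w, G0.Adj x w → ¬ M.Adj x w) : ∃ c, Ok G0 L c := by
  classical
  -- the colouring of the edges outside `M`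
  set E1 : Finset (V × V) := univ.filter (fun e => X e.1 ∧ (G \ M).Adj e.1 e.2) with hE1
  obtain ⟨c1, hc1, hc2⟩ := K1 E1 n (by
    intro u
    refine le_trans ?_ (hn u)
    rw [dg_eq]
    refine card_le_card_of_injOn (fun e => e.2) ?_ ?_
    · intro e he
      have he' := mem_filter.1 (mem_coe.1 he)
      rw [hE1, mem_filter] at he'
      rw [mem_coe, mem_filter]
      obtain ⟨⟨_, _, h1⟩, h2⟩ := he'
      rw [← h2]
      exact ⟨mem_univ _, h1⟩
    · intro e he f hf hef
      have he' := mem_filter.1 (mem_coe.1 he)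
      have hf' := mem_filter.1 (mem_coe.1 hf)
      exact Prod.ext (he'.2.trans hf'.2.symm) hef) (by
    intro u
    refine le_trans ?_ (hn u)
    rw [dg_eq]
    refine card_le_card_of_injOn (fun e => e.1) ?_ ?_
    · intro e he
      have he' := mem_filter.1 (mem_coe.1 he)
      rw [hE1, mem_filter] at he'
      rw [mem_coe, mem_filter]
      obtain ⟨⟨_, _, h1⟩, h2⟩ := he'
      rw [← h2]
      exact ⟨mem_univ _, h1.symm⟩
    · intro e he f hf hef
      have he' := mem_filter.1 (mem_coe.1 he)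
      have hf' := mem_filter.1 (mem_coe.1 hf)
      exact Prod.ext hef (he'.2.trans hf'.2.symm))
  set E : Finset (V × V) := univ.filter (fun e => X e.1 ∧ G0.Adj e.1 e.2) with hE
  have hEm : ∀ e, e ∈ E ↔ X e.1 ∧ G0.Adj e.1 e.2 := by
    intro e
    simp [hE]
  have hE1m : ∀ e, e ∈ E → ¬ M.Adj e.1 e.2 → e ∈ E1 := by
    intro e he hM
    rw [hE1, mem_filter]
    exact ⟨mem_univ _, ((hEm e).1 he).1, hG ((hEm e).1 he).2, hM⟩
  set c : V × V → ℕ := fun e => if M.Adj e.1 e.2 then n else c1 e with hc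
  have hcM : ∀ e, M.Adj e.1 e.2 → c e = n := fun e h => by simp only [hc]; rw [if_pos h]
  have hcN : ∀ e, ¬ M.Adj e.1 e.2 → c e = c1 e := fun e h => by simp only [hc]; rw [if_neg h]
  have hcle : ∀ e ∈ E, c e ≤ n := by
    intro e he
    by_cases hM : M.Adj e.1 e.2
    · rw [hcM e hM]
    · rw [hcN e hM]
      exact (hc1 e (hE1m e he hM)).le
  have hclt : ∀ e ∈ E, ¬ M.Adj e.1 e.2 → c e < n := by
    intro e he hM
    rw [hcN e hM]
    exact hc1 e (hE1m e he hM)
  have hinj : ∀ e ∈ E, ∀ f ∈ E, e.1 = f.1 ∨ e.2 = f.2 → c e = c f → e = f := by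
    intro e he f hf hor heq
    by_cases hMe : M.Adj e.1 e.2
    · by_cases hMf : M.Adj f.1 f.2
      · rcases hor with h | h
        · rw [← h] at hMf
          exact Prod.ext h (hMm e.1 e.2 f.2 hMe hMf)
        · rw [← h] at hMf
          exact Prod.ext (hMm e.2 e.1 f.1 hMe.symm hMf.symm) h
      · have h1 := hclt f hf hMf
        have h2 := hcM e hMe
        omega
    · by_cases hMf : M.Adj f.1 f.2
      · have h1 := hclt e he hMe
        have h2 := hcM f hMf
        omega
      · by_contra hne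
        exact hc2 e (hE1m e he hMe) f (hE1m f hf hMf) hne hor (by
          rw [← hcN e hMe, ← hcN f hMf, heq])
  obtain ⟨φ, hφ⟩ := from_ranks E c hinj (fun e => L s(e.1, e.2)) (by
    intro e he
    have hlow : (E.filter (fun f => f.2 = e.2 ∧ c f < c e)).card ≤ c e := by
      calc (E.filter (fun f => f.2 = e.2 ∧ c f < c e)).card ≤ (range (c e)).card := by
            refine card_le_card_of_injOn c ?_ ?_
            · intro f hf
              have hf' := mem_filter.1 (mem_coe.1 hf)
              exact mem_coe.2 (mem_range.2 hf'.2.2)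
            · intro f hf g hg hfg
              have hf' := mem_filter.1 (mem_coe.1 hf)
              have hg' := mem_filter.1 (mem_coe.1 hg)
              exact hinj f hf'.1 g hg'.1 (Or.inr (hf'.2.1.trans hg'.2.1.symm)) hfg
        _ = c e := card_range _
    have hinj2 : Set.InjOn c ↑(E.filter (fun f => f.1 = e.1 ∧ c e < c f)) := by
      intro f hf g hg hfg
      have hf' := mem_filter.1 (mem_coe.1 hf)
      have hg' := mem_filter.1 (mem_coe.1 hg)
      exact hinj f hf'.1 g hg'.1 (Or.inl (hf'.2.1.trans hg'.2.1.symm)) hfg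
    have hc0 := hcle e he
    rcases hL2 e.1 e.2 ((hEm e).1 he).1 ((hEm e).1 he).2 with h | h
    · have hhigh : (E.filter (fun f => f.1 = e.1 ∧ c e < c f)).card ≤ n - c e := by
        calc (E.filter (fun f => f.1 = e.1 ∧ c e < c f)).card ≤ (Ioc (c e) n).card := by
              refine card_le_card_of_injOn c ?_ hinj2
              intro f hf
              have hf' := mem_filter.1 (mem_coe.1 hf)
              exact mem_coe.2 (mem_Ioc.2 ⟨hf'.2.2, hcle f hf'.1⟩)
          _ = n - c e := Nat.card_Ioc _ _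
      show _ < (L s(e.1, e.2)).card
      omega
    · have hlt := hclt e he (h e.2 ((hEm e).1 he).2)
      have hhigh : (E.filter (fun f => f.1 = e.1 ∧ c e < c f)).card ≤ n - c e - 1 := by
        calc (E.filter (fun f => f.1 = e.1 ∧ c e < c f)).card ≤ (Ioo (c e) n).card := by
              refine card_le_card_of_injOn c ?_ hinj2
              intro f hf
              have hf' := mem_filter.1 (mem_coe.1 hf)
              refine mem_coe.2 (mem_Ioo.2 ⟨hf'.2.2, hclt f hf'.1 ?_⟩)
              have h3 := ((hEm f).1 hf'.1).2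
              rw [hf'.2.1] at h3 ⊢
              exact h f.2 h3
          _ = n - c e - 1 := Nat.card_Ioo _ _
      have h5 := hL1 e.1 e.2 ((hEm e).1 he).2
      show _ < (L s(e.1, e.2)).card
      omega)
  refine of_pairs G0 X (fun u v huv => hX u v (hG huv)) L φ ?_ ?_ ?_
  · intro x y hx hxy
    exact (hφ (x, y) ((hEm (x, y)).2 ⟨hx, hxy⟩)).1
  · intro x y y' hx hxy hxy' hne
    exact (hφ (x, y') ((hEm (x, y')).2 ⟨hx, hxy'⟩)).2 (x, y) ((hEm (x, y)).2 ⟨hx, hxy⟩)
      (fun h => hne (congrArg Prod.snd h)) (Or.inl rfl)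
  · intro x x' y hx hx' hxy hxy' hne
    exact (hφ (x', y) ((hEm (x', y)).2 ⟨hx', hxy'⟩)).2 (x, y) ((hEm (x, y)).2 ⟨hx, hxy⟩)
      (fun h => hne (congrArg Prod.fst h)) (Or.inr rfl)

end Pool.Agent.R61.TotExt
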