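import Mathlib
import Pool.Agent.R61.TotBip

/-!
# Extending total colourings of distance-3 matchings in bipartite graphs
-/

set_option autoImplicit false

namespace Pool.Agent.R61.TotExt

open Finset Pool.Agent.TH559.LE

/-- The number of colours that remain for an edge `uv` when `v` has the colour of the edge of the
matching at `u`. -/
theorem lcard2 {V : Type} (H : SimpleGraph V) {K : ℕ}
    (hmatch : ∀ u v w, H.Adj u v → H.Adj u w → v = w) (f : V → Fin K) (g0 : Sym2 V → Fin K)
    (S : Finset ℕ) (u v z : V) (huz : H.Adj u z) (hv : ∀ x, ¬ H.Adj v x) (hfv : f v = g0 s(u, z))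
    (hS : ∀ γ : ℕ, γ ∈ S ↔ (γ < K ∧ γ ≠ (f u).1 ∧ γ ≠ (f v).1 ∧
        (∀ x, H.Adj u x → γ ≠ (g0 s(u, x)).1) ∧ ∀ x, H.Adj v x → γ ≠ (g0 s(v, x)).1)) :
    K ≤ S.card + 2 := by
  have hsub : range K ⊆ S ∪ {(f u).1, (f v).1} := by
    intro γ hγ
    rw [mem_range] at hγ
    simp only [mem_union, mem_insert, mem_singleton]
    by_contra hcon
    push Not at hcon
    obtain ⟨h1, h2, h3⟩ := hcon
    apply h1
    rw [hS]
    refine ⟨hγ, h2, h3, ?_, fun x hx => absurd hx (hv x)⟩
    intro x hx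
    rw [hmatch u x z hx huz, ← hfv]
    exact h3
  have h1 := card_le_card hsub
  rw [card_range] at h1
  have h4 := card_union_le S {(f u).1, (f v).1}
  have h5 : ({(f u).1, (f v).1} : Finset ℕ).card ≤ 2 := card_le_two
  omega

/-- Extension in bipartite graphs with a suitable matching `M` covering the vertices of
degree `Δ`. -/
theorem dist3_bip {V : Type} [Fintype V] (G H M : SimpleGraph V) (Δ : ℕ) (X : V → Prop)
    (hX : ∀ u v, G.Adj u v → (X u ↔ ¬ X v))
    (hΔ : ∀ v, (G.neighborSet v).ncard ≤ Δ) (hHG : H ≤ G)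
    (hmatch : ∀ u v w, H.Adj u v → H.Adj u w → v = w)
    (hdist : ∀ u v x y, H.Adj u v → H.Adj x y → s(u, v) ≠ s(x, y) → 3 ≤ G.edist u x)
    (hMG : M ≤ G) (hMm : ∀ u v w, M.Adj u v → M.Adj u w → v = w)
    (hMc : ∀ v, (G.neighborSet v).ncard = Δ → ∃ w, M.Adj v w)
    (hMH : ∀ u v y x w, H.Adj u v → X u → G.Adj u y → G.Adj y x → G.Adj x w →
      (∀ z, ¬ H.Adj y z) → (∀ z, ¬ H.Adj x z) → (∃ z, H.Adj w z) → M.Adj u v)
    (f0 : V → Fin (Δ + 2)) (g0 : Sym2 V → Fin (Δ + 2)) (h0 : IsTotal H f0 g0) :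
    ∃ (f : V → Fin (Δ + 2)) (g : Sym2 V → Fin (Δ + 2)), IsTotal G f g ∧
      ∀ u v, H.Adj u v → f u = f0 u ∧ g s(u, v) = g0 s(u, v) := by
  classical
  have hΔ' : ∀ v, dg G v ≤ Δ := hΔ
  -- covered vertices that are adjacent form an edge of the matching
  have hA : ∀ u v, G.Adj u v → (∃ x, H.Adj u x) → (∃ y, H.Adj v y) → H.Adj u v := by
    rintro u v huv ⟨x, hx⟩ ⟨y, hy⟩
    by_contra hn
    have hne : s(u, x) ≠ s(v, y) := by
      intro h
      rw [Sym2.eq_iff] at h
      rcases h with ⟨h1, h2⟩ | ⟨h1, h2⟩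
      · exact huv.ne h1
      · subst h2
        exact hn hx
    have h3 := hdist u x v y hx hy hne
    have h4 : G.edist u v ≤ 1 := by
      have := SimpleGraph.edist_le (SimpleGraph.Walk.cons huv SimpleGraph.Walk.nil)
      simpa using this
    have h5 : (3 : ℕ∞) ≤ 1 := h3.trans h4
    exact absurd h5 (by decide)
  have hB : ∀ v w z w' z', G.Adj v w → H.Adj w z → G.Adj v w' → H.Adj w' z' →
      s(w, z) = s(w', z') := by
    intro v w z w' z' hvw hwz hvw' hwz'
    by_contra hne
    have h3 := hdist w z w' z' hwz hwz' hne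
    have h4 : G.edist w w' ≤ 2 := by
      have := SimpleGraph.edist_le (SimpleGraph.Walk.cons hvw.symm
        (SimpleGraph.Walk.cons hvw' SimpleGraph.Walk.nil))
      simpa using this
    have h5 : (3 : ℕ∞) ≤ 2 := h3.trans h4
    exact absurd h5 (by decide)
  -- the colour of the edge of the matching near a vertex
  set cc : V → Fin (Δ + 2) := fun v =>
    if h : ∃ e : V × V, G.Adj v e.1 ∧ H.Adj e.1 e.2 then
      g0 s((Classical.choose h).1, (Classical.choose h).2) else f0 v with hcc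
  have hccv : ∀ v w z, G.Adj v w → H.Adj w z → cc v = g0 s(w, z) := by
    intro v w z hvw hwz
    have hex : ∃ e : V × V, G.Adj v e.1 ∧ H.Adj e.1 e.2 := ⟨(w, z), hvw, hwz⟩
    simp only [hcc]
    rw [dif_pos hex]
    obtain ⟨h1, h2⟩ := Classical.choose_spec hex
    rw [hB v _ _ w z h1 h2 hvw hwz]
  set bad : V → Prop := fun y => ∃ x w, G.Adj y x ∧ (∀ z, ¬ H.Adj x z) ∧ G.Adj x w ∧
    ∃ z, H.Adj w z with hbad
  set D' : V → Prop := fun v => (∃ x, H.Adj v x) ∨
    ((∃ w, G.Adj v w ∧ ∃ z, H.Adj w z) ∧ (X v ∨ ¬ bad v)) with hD'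
  set f1 : V → Fin (Δ + 2) := fun v => if ∃ x, H.Adj v x then f0 v else cc v with hf1
  have hf1D : ∀ v, (∃ x, H.Adj v x) → f1 v = f0 v := by
    intro v hv
    simp only [hf1]
    rw [if_pos hv]
  have hf1N : ∀ v, ¬ (∃ x, H.Adj v x) → f1 v = cc v := by
    intro v hv
    simp only [hf1]
    rw [if_neg hv]
  have hone : ∀ u v, G.Adj u v → (∃ x, H.Adj u x) → ¬ (∃ x, H.Adj v x) → f1 u ≠ f1 v := by
    rintro u v huv ⟨x, hx⟩ hv
    rw [hf1D u ⟨x, hx⟩, hf1N v hv, hccv v u x huv.symm hx]
    exact (h0.2.2 u x hx).symm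
  have hprop : ∀ u v, D' u → D' v → G.Adj u v → f1 u ≠ f1 v := by
    intro u v hu hv huv
    by_cases hDu : ∃ x, H.Adj u x
    · by_cases hDv : ∃ x, H.Adj v x
      · rw [hf1D u hDu, hf1D v hDv]
        exact h0.1 u v (hA u v huv hDu hDv)
      · exact hone u v huv hDu hDv
    · by_cases hDv : ∃ x, H.Adj v x
      · exact (hone v u huv.symm hDv hDu).symm
      · exfalso
        rcases hu with hu | ⟨⟨w, hw1, hw2⟩, hu⟩
        · exact hDu hu
        rcases hv with hv | ⟨⟨w', hw1', hw2'⟩, hv⟩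
        · exact hDv hv
        by_cases hXu : X u
        · have hXv : ¬ X v := (hX u v huv).1 hXu
          refine (hv.resolve_left hXv) ⟨u, w, huv.symm, ?_, hw1, hw2⟩
          intro z hz
          exact hDu ⟨z, hz⟩
        · refine (hu.resolve_left hXu) ⟨v, w', huv, ?_, hw1', hw2'⟩
          intro z hz
          exact hDv ⟨z, hz⟩
  obtain ⟨f, hfD, hfG⟩ := vext G f1 D' hprop (fun v => by have := hΔ' v; omega)
  have hff0 : ∀ v, (∃ x, H.Adj v x) → f v = f0 v := by
    intro v hv
    rw [hfD v (Or.inl hv), hf1D v hv]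
  refine core G H hHG hmatch f0 g0 h0 (fun u v hu hv huv => h0.1 u v (hA u v huv hu hv)) f hff0
    hfG ?_
  intro L hL
  have hLc : ∀ u v, (G \ H).Adj u v → Δ + 2 ≤ (L s(u, v)).card + 2 +
      (if ∃ x, H.Adj u x then 1 else 0) + (if ∃ x, H.Adj v x then 1 else 0) :=
    fun u v huv => lcard H hmatch f g0 (L s(u, v)) u v (hL u v huv)
  rcases Nat.eq_zero_or_pos Δ with hΔ0 | hΔ0
  · refine ⟨fun _ => 0, ?_, ?_⟩
    · intro u v huv
      exfalso
      have h1 := hΔ' u
      have h2 : 0 < dg G u := by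
        rw [dg_eq]
        exact card_pos.2 ⟨v, by simpa using huv.1⟩
      omega
    · intro u v w huv
      exfalso
      have h1 := hΔ' u
      have h2 : 0 < dg G u := by
        rw [dg_eq]
        exact card_pos.2 ⟨v, by simpa using huv.1⟩
      omega
  refine list_top G (G \ H) M sdiff_le hMm X hX (Δ - 1) ?_ L ?_ ?_
  · intro v
    by_cases hv : dg G v = Δ
    · obtain ⟨w, hw⟩ := hMc v hv
      have h1 : dg (G \ M) v < dg G v := dg_lt sdiff_le (hMG hw) (fun h => h.2 hw)
      omega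
    · have h1 := hΔ' v
      have h2 : dg (G \ M) v ≤ dg G v := dg_mono sdiff_le v
      omega
  · intro u v huv
    have h1 := hLc u v huv
    by_cases hu : ∃ x, H.Adj u x
    · have hv : ¬ ∃ x, H.Adj v x := fun hv => huv.2 (hA u v huv.1 hu hv)
      rw [if_pos hu, if_neg hv] at h1
      omega
    · rw [if_neg hu] at h1
      split_ifs at h1 <;> omega
  · intro x y hXx hxy
    by_cases hx : ∃ z, H.Adj x z
    · have hy : ¬ ∃ z, H.Adj y z := fun hy => hxy.2 (hA x y hxy.1 hx hy)
      obtain ⟨z, hz⟩ := hx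
      by_cases hb : bad y
      · right
        intro w hw hMw
        obtain ⟨x', w', h1, h2, h3, h4⟩ := hb
        have h5 : M.Adj x z := hMH x z y x' w' hz hXx hxy.1 h1 h3
          (fun z hz => hy ⟨z, hz⟩) h2 h4
        rw [hMm x w z hMw h5] at hw
        exact hw.2 hz
      · left
        have h1 : f y = g0 s(x, z) := by
          rw [hfD y (Or.inr ⟨⟨x, hxy.1.symm, z, hz⟩, Or.inr hb⟩), hf1N y hy,
            hccv y x z hxy.1.symm hz]
        have h2 := lcard2 H hmatch f g0 (L s(x, y)) x y z hz (fun w hw => hy ⟨w, hw⟩) h1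
          (hL x y hxy)
        omega
    · left
      by_cases hy : ∃ z, H.Adj y z
      · obtain ⟨z, hz⟩ := hy
        have h1 : f x = g0 s(y, z) := by
          rw [hfD x (Or.inr ⟨⟨y, hxy.1, z, hz⟩, Or.inl hXx⟩), hf1N x hx, hccv x y z hxy.1 hz]
        have h2 := lcard2 H hmatch f g0 (L s(y, x)) y x z hz (fun w hw => hx ⟨w, hw⟩) h1
          (hL y x hxy.symm)
        rw [Sym2.eq_swap] at h2
        omega
      · have h1 := hLc x y hxy
        rw [if_neg hx, if_neg hy] at h1
        omega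

/-- In a sparse bipartite graph, a distance-3 matching is contained in a matching that covers all
vertices of degree `Δ`. -/
theorem match_ext {V : Type} [Fintype V] (G H : SimpleGraph V) (Δ : ℕ) (X : V → Prop)
    (hX : ∀ u v, G.Adj u v → (X u ↔ ¬ X v)) (hHG : H ≤ G)
    (hmatch : ∀ u v w, H.Adj u v → H.Adj u w → v = w)
    (hB : ∀ v w z w' z', G.Adj v w → H.Adj w z → G.Adj v w' → H.Adj w' z' →
      s(w, z) = s(w', z'))
    (h2 : 2 ≤ Δ)
    (hsp : ∀ A : Finset V, ∑ v ∈ A, (G.neighborSet v ∩ A).ncard ≤ (Δ - 1) * A.card) :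
    ∃ M : SimpleGraph V, M ≤ G ∧ H ≤ M ∧ (∀ u v w, M.Adj u v → M.Adj u w → v = w) ∧
      ∀ v, (G.neighborSet v).ncard = Δ → ∃ w, M.Adj v w := by
  classical
  set D : V → Prop := fun v => ∃ x, H.Adj v x with hD
  set t : V → Finset V := fun v => if D v then {v} else
    (univ.filter (fun w => G.Adj v w ∧ ¬ D w)) ∪ (if dg G v = Δ then ∅ else {v}) with ht
  have ht1 : ∀ v, D v → t v = {v} := fun v hv => by simp only [ht]; rw [if_pos hv]
  have ht2 : ∀ v, ¬ D v → dg G v = Δ → t v = univ.filter (fun w => G.Adj v w ∧ ¬ D w) := by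
    intro v hv hd
    simp only [ht]
    rw [if_neg hv, if_pos hd, union_empty]
  have ht3 : ∀ v, ¬ D v → dg G v ≠ Δ →
      t v = (univ.filter (fun w => G.Adj v w ∧ ¬ D w)) ∪ {v} := by
    intro v hv hd
    simp only [ht]
    rw [if_neg hv, if_neg hd]
  have ht4 : ∀ v w, ¬ D v → G.Adj v w → ¬ D w → w ∈ t v := by
    intro v w hv hvw hw
    by_cases hd : dg G v = Δ
    · rw [ht2 v hv hd, mem_filter]
      exact ⟨mem_univ _, hvw, hw⟩
    · rw [ht3 v hv hd, mem_union, mem_filter]
      exact Or.inl ⟨mem_univ _, hvw, hw⟩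
  -- vertices outside the matching have at most one neighbour in it
  have hfew : ∀ v, dg G v = Δ → Δ ≤ (univ.filter (fun w => G.Adj v w ∧ ¬ D w)).card + 1 := by
    intro v hd
    rw [dg_eq] at hd
    have h1 : (univ.filter (fun w => G.Adj v w ∧ D w)).card ≤ 1 := by
      rw [card_le_one]
      intro a ha b hb
      rw [mem_filter] at ha hb
      obtain ⟨_, ha1, z, hz⟩ := ha
      obtain ⟨_, hb1, z', hz'⟩ := hb
      have h3 := hB v a z b z' ha1 hz hb1 hz'
      rw [Sym2.eq_iff] at h3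
      rcases h3 with h3 | h3
      · exact h3.1
      · exfalso
        have h4 : G.Adj a b := by
          have := hHG hz
          rwa [h3.2] at this
        have e1 := hX v a ha1
        have e2 := hX v b hb1
        have e3 := hX a b h4
        tauto
    have h3 : (univ.filter (fun w => G.Adj v w)) =
        (univ.filter (fun w => G.Adj v w ∧ ¬ D w)) ∪ (univ.filter (fun w => G.Adj v w ∧ D w)) := by
      ext w
      simp only [mem_union, mem_filter, mem_univ, true_and]
      tauto
    have h4 := card_union_le (univ.filter (fun w => G.Adj v w ∧ ¬ D w))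
      (univ.filter (fun w => G.Adj v w ∧ D w))
    rw [← h3] at h4
    omega
  have hall : ∀ S : Finset V, S.card ≤ (S.biUnion t).card := by
    intro S
    set S2 : Finset V := S.filter (fun v => ¬ D v ∧ dg G v = Δ ∧ ∀ w ∈ S, G.Adj v w → D w)
      with hS2
    set N : Finset V := univ.filter (fun w => ¬ D w ∧ ∃ v ∈ S2, G.Adj v w) with hN
    have hNS : Disjoint N S := by
      rw [disjoint_left]
      intro w hw hwS
      rw [hN, mem_filter] at hw
      obtain ⟨_, hw1, v, hv, hvw⟩ := hw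
      rw [hS2, mem_filter] at hv
      exact hw1 (hv.2.2.2 w hwS hvw)
    have hsub : (S \ S2) ∪ N ⊆ S.biUnion t := by
      intro v hv
      rw [mem_biUnion]
      rcases mem_union.1 hv with hv | hv
      · rw [mem_sdiff] at hv
        by_cases hDv : D v
        · refine ⟨v, hv.1, ?_⟩
          rw [ht1 v hDv, mem_singleton]
        · by_cases hd : dg G v = Δ
          · have h3 : ¬ ∀ w ∈ S, G.Adj v w → D w := by
              intro h
              exact hv.2 (mem_filter.2 ⟨hv.1, hDv, hd, h⟩)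
            push Not at h3
            obtain ⟨w, hw, hvw, hDw⟩ := h3
            exact ⟨w, hw, ht4 w v hDw hvw.symm hDv⟩
          · refine ⟨v, hv.1, ?_⟩
            rw [ht3 v hDv hd, mem_union, mem_singleton]
            exact Or.inr rfl
      · rw [hN, mem_filter] at hv
        obtain ⟨_, hv1, w, hw, hwv⟩ := hv
        have hw' := hw
        rw [hS2, mem_filter] at hw'
        exact ⟨w, hw'.1, ht4 w v hw'.2.1 hwv hv1⟩
    have hS2N : S2.card ≤ N.card := by
      have hdis : Disjoint S2 N := by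
        rw [disjoint_left]
        intro v hv hv'
        exact (disjoint_left.1 hNS) hv' (mem_filter.1 hv).1
      have h3 := hsp (S2 ∪ N)
      rw [sum_union hdis, card_union_of_disjoint hdis] at h3
      have e1 : ∀ v ∈ S2, Δ - 1 ≤ (N.filter (fun w => G.Adj v w)).card := by
        intro v hv
        have hv' := hv
        rw [hS2, mem_filter] at hv'
        have h4 := hfew v hv'.2.2.1
        have h5 : (univ.filter (fun w => G.Adj v w ∧ ¬ D w)) ⊆ N.filter (fun w => G.Adj v w) := by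
          intro w hw
          rw [mem_filter] at hw
          rw [mem_filter, hN, mem_filter]
          exact ⟨⟨mem_univ _, hw.2.2, v, hv, hw.2.1⟩, hw.2.1⟩
        have h6 := card_le_card h5
        omega
      have e2 : (Δ - 1) * S2.card ≤ ∑ v ∈ S2, (N.filter (fun w => G.Adj v w)).card := by
        rw [mul_comm, ← smul_eq_mul, ← sum_const]
        exact sum_le_sum e1
      have e3 : ∑ v ∈ S2, (N.filter (fun w => G.Adj v w)).card =
          ∑ w ∈ N, (S2.filter (fun v => G.Adj v w)).card := by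
        simp_rw [card_filter]
        exact sum_comm
      have e4 : ∑ v ∈ S2, (N.filter (fun w => G.Adj v w)).card ≤
          ∑ v ∈ S2, (G.neighborSet v ∩ ↑(S2 ∪ N)).ncard := by
        apply sum_le_sum
        intro v _
        rw [← Set.ncard_coe_finset]
        refine Set.ncard_le_ncard ?_ (Set.toFinite _)
        intro w hw
        have hw' := mem_filter.1 (mem_coe.1 hw)
        exact ⟨hw'.2, mem_coe.2 (mem_union_right _ hw'.1)⟩
      have e5 : ∑ w ∈ N, (S2.filter (fun v => G.Adj v w)).card ≤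
          ∑ v ∈ N, (G.neighborSet v ∩ ↑(S2 ∪ N)).ncard := by
        apply sum_le_sum
        intro v _
        rw [← Set.ncard_coe_finset]
        refine Set.ncard_le_ncard ?_ (Set.toFinite _)
        intro w hw
        have hw' := mem_filter.1 (mem_coe.1 hw)
        exact ⟨hw'.2.symm, mem_coe.2 (mem_union_left _ hw'.1)⟩
      have e6 : (Δ - 1) * (2 * S2.card) ≤ (Δ - 1) * (S2.card + N.card) := by
        have : (Δ - 1) * (2 * S2.card) = (Δ - 1) * S2.card + (Δ - 1) * S2.card := by ring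
        omega
      have e7 := Nat.le_of_mul_le_mul_left e6 (by omega)
      omega
    have h4 := card_le_card hsub
    have hdis2 : Disjoint (S \ S2) N := by
      rw [disjoint_left]
      intro v hv hv'
      exact (disjoint_left.1 hNS) hv' (mem_sdiff.1 hv).1
    rw [card_union_of_disjoint hdis2] at h4
    have h5 : (S \ S2).card + S2.card = S.card := card_sdiff_add_card_eq_card (filter_subset _ _)
    omega
  obtain ⟨σ, hσ1, hσ2⟩ := (Finset.all_card_le_biUnion_card_iff_exists_injective t).1 hall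
  have hσ3 : Function.Surjective σ := Finite.injective_iff_surjective.1 hσ1
  have hσD : ∀ v, D v → σ v = v := by
    intro v hv
    have := hσ2 v
    rwa [ht1 v hv, mem_singleton] at this
  have hσN : ∀ v, σ v ≠ v → ¬ D v ∧ G.Adj v (σ v) ∧ ¬ D (σ v) := by
    intro v hv
    have hDv : ¬ D v := fun h => hv (hσD v h)
    have h3 := hσ2 v
    refine ⟨hDv, ?_⟩
    by_cases hd : dg G v = Δ
    · rw [ht2 v hDv hd, mem_filter] at h3
      exact h3.2
    · rw [ht3 v hDv hd, mem_union, mem_filter, mem_singleton] at h3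
      rcases h3 with h3 | h3
      · exact h3.2
      · exact absurd h3 hv
  have hσΔ : ∀ v, ¬ D v → dg G v = Δ → σ v ≠ v := by
    intro v hDv hd heq
    have h3 := hσ2 v
    rw [ht2 v hDv hd, mem_filter, heq] at h3
    exact G.loopless.irrefl v h3.2.1
  let M : SimpleGraph V :=
    { Adj := fun a b => H.Adj a b ∨ (X a ∧ σ a = b ∧ a ≠ b) ∨ (X b ∧ σ b = a ∧ a ≠ b)
      symm := ⟨fun a b h => by
        rcases h with h | h | h
        · exact Or.inl h.symm
        · exact Or.inr (Or.inr ⟨h.1, h.2.1, h.2.2.symm⟩)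
        · exact Or.inr (Or.inl ⟨h.1, h.2.1, h.2.2.symm⟩)⟩
      loopless := ⟨fun a h => by
        rcases h with h | h | h
        · exact H.loopless.irrefl a h
        · exact h.2.2 rfl
        · exact h.2.2 rfl⟩ }
  have hM : ∀ a b, M.Adj a b ↔ H.Adj a b ∨ (X a ∧ σ a = b ∧ a ≠ b) ∨ (X b ∧ σ b = a ∧ a ≠ b) :=
    fun _ _ => Iff.rfl
  have hs1 : ∀ a b, X a ∧ σ a = b ∧ a ≠ b → G.Adj a b ∧ ¬ D a ∧ ¬ D b := by
    rintro a b ⟨_, h4, h5⟩
    have h6 := hσN a (by rw [h4]; exact h5.symm)
    rw [h4] at h6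
    exact ⟨h6.2.1, h6.1, h6.2.2⟩
  have hs2 : ∀ a b, X b ∧ σ b = a ∧ a ≠ b → G.Adj b a ∧ ¬ D b ∧ ¬ D a := by
    rintro a b ⟨h3, h4, h5⟩
    exact hs1 b a ⟨h3, h4, h5.symm⟩
  refine ⟨M, ?_, fun a b h => Or.inl h, ?_, ?_⟩
  · intro a b h
    rcases (hM a b).1 h with h | h | h
    · exact hHG h
    · exact (hs1 a b h).1
    · exact (hs2 a b h).1.symm
  · intro u v w huv huw
    rcases (hM u v).1 huv with h | h | h
    · rcases (hM u w).1 huw with h' | h' | h'
      · exact hmatch u v w h h'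
      · exact absurd ⟨v, h⟩ (hs1 u w h').2.1
      · exact absurd ⟨v, h⟩ (hs2 u w h').2.2
    · rcases (hM u w).1 huw with h' | h' | h'
      · exact absurd ⟨w, h'⟩ (hs1 u v h).2.1
      · exact h.2.1.symm.trans h'.2.1
      · exact absurd h.1 (fun hXu => (hX w u (hs2 u w h').1).1 h'.1 hXu)
    · rcases (hM u w).1 huw with h' | h' | h'
      · exact absurd ⟨w, h'⟩ (hs2 u v h).2.2
      · exact absurd h'.1 (fun hXu => (hX v u (hs2 u v h).1).1 h.1 hXu)
      · exact hσ1 (h.2.1.trans h'.2.1.symm)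
  · intro v hv
    by_cases hDv : D v
    · obtain ⟨w, hw⟩ := hDv
      exact ⟨w, Or.inl hw⟩
    · have h3 := hσΔ v hDv hv
      by_cases hXv : X v
      · exact ⟨σ v, Or.inr (Or.inl ⟨hXv, rfl, h3.symm⟩)⟩
      · obtain ⟨w, hw⟩ := hσ3 v
        have h4 : v ≠ w := by
          rintro rfl
          exact h3 hw
        have h5 := hσN w (by rw [hw]; exact h4)
        rw [hw] at h5
        have h6 : X w := by
          by_contra hXw
          exact hXw ((hX w v h5.2.1).2 hXv)
        exact ⟨w, Or.inr (Or.inr ⟨h6, hw, h4⟩)⟩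

end Pool.Agent.R61.TotExt
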