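import Mathlib
import Pool.Agent.R61.TotSys

/-!
# Extending precoloured matchings with three more colours than the maximum degree
-/

set_option autoImplicit false

namespace Pool.Agent.R61.TotExt

open Finset Pool.Agent.TH559.LE

variable {V : Type}

/-- The situation for a precoloured matching and `Δ + 3` colours. -/
structure Sys2 [Fintype V] (D : V → Prop) (Δ : ℕ) (L : Sym2 V → Finset ℕ) (G : SimpleGraph V) :
    Prop where
  deg : ∀ v, dg G v ≤ Δ
  degD : ∀ v, D v → dg G v + 1 ≤ Δ
  l0 : ∀ u v, G.Adj u v → Δ ≤ (L s(u, v)).card + 1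
  l1 : ∀ u v, G.Adj u v → ¬ D u → Δ ≤ (L s(u, v)).card
  l2 : ∀ u v, G.Adj u v → ¬ D u → ¬ D v → Δ + 1 ≤ (L s(u, v)).card

theorem Sys2.mono [Fintype V] {D : V → Prop} {Δ : ℕ} {L : Sym2 V → Finset ℕ}
    {G H : SimpleGraph V} (h : Sys2 D Δ L G) (hH : H ≤ G) : Sys2 D Δ L H where
  deg v := (dg_mono hH v).trans (h.deg v)
  degD v hv := le_trans (Nat.add_le_add_right (dg_mono hH v) 1) (h.degD v hv)
  l0 u v huv := h.l0 u v (hH huv)
  l1 u v huv := h.l1 u v (hH huv)
  l2 u v huv := h.l2 u v (hH huv)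

theorem Sys2.le [Fintype V] {D : V → Prop} {Δ : ℕ} {L : Sym2 V → Finset ℕ}
    {G : SimpleGraph V} (h : Sys2 D Δ L G) {u v : V} (huv : G.Adj u v) :
    dg G u ≤ (L s(u, v)).card := by
  by_cases hu : D u
  · have h1 := h.degD u hu
    have h2 := h.l0 u v huv
    omega
  · have h1 := h.deg u
    have h2 := h.l1 u v huv hu
    omega

/-- Bipartite graphs. -/
theorem list_bip [Fintype V] {D : V → Prop} {Δ : ℕ} {L : Sym2 V → Finset ℕ} {G : SimpleGraph V}
    (hs : Sys2 D Δ L G) (X : V → Prop) (hX : ∀ u v, G.Adj u v → (X u ↔ ¬ X v)) :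
    ∃ c, Ok G L c := by
  classical
  refine ext ⊥ G bot_le X (fun u v huv _ => hX u v huv) L ?_ (fun _ => 0)
    ⟨fun u v h => absurd h (by simp), fun u v w h => absurd h (by simp)⟩
  intro u v huv _
  have h1 := hs.le huv
  have h2 : dg (⊥ : SimpleGraph V) v = 0 := by
    rw [dg_eq, card_eq_zero, filter_eq_empty_iff]
    intro w _
    simp
  omega

/-- Removing the edges at an independent set `S` of vertices of small degree. -/
theorem red_low2 [Fintype V] {D : V → Prop} {Δ : ℕ} {L : Sym2 V → Finset ℕ} {H : SimpleGraph V}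
    (hs : Sys2 D Δ L H) (S : Finset V) (t : ℕ) (hS1 : ∀ x ∈ S, dg H x ≤ t)
    (hS2 : ∀ u v, H.Adj u v → u ∈ S → v ∉ S)
    (hF : ∀ x y, x ∈ S → H.Adj x y →
      dg H y + t ≤ {w | H.Adj y w ∧ w ∈ S}.ncard + (L s(x, y)).card)
    (A : SimpleGraph V) (hA : ∀ a b, A.Adj a b ↔ H.Adj a b ∧ a ∉ S ∧ b ∉ S)
    (c : Sym2 V → ℕ) (hc : Ok A L c) : ∃ c', Ok H L c' := by
  classical
  have hAH : A ≤ H := fun a b h => ((hA a b).1 h).1
  have hsplit : ∀ y, y ∉ S → dg A y + {w | H.Adj y w ∧ w ∈ S}.ncard = dg H y := by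
    intro y hy
    rw [dg, dg, ← Set.ncard_union_eq]
    · congr 1
      ext w
      simp only [Set.mem_union, SimpleGraph.mem_neighborSet, hA, Set.mem_ofPred_eq]
      tauto
    · rw [Set.disjoint_left]
      intro w h1 h2
      exact ((hA y w).1 h1).2.2 h2.2
  have h0 : ∀ x, x ∈ S → dg A x = 0 := by
    intro x hx
    rw [dg_eq, card_eq_zero, filter_eq_empty_iff]
    intro w _ hw
    exact ((hA x w).1 hw).2.1 hx
  refine ext A H hAH (fun x => x ∈ S) ?_ L ?_ c hc
  · intro u v huv hn
    rw [hA] at hn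
    push Not at hn
    constructor
    · exact hS2 u v huv
    · intro hv
      by_contra hu
      exact hv (hn huv hu)
  · intro u v huv hn
    rw [hA] at hn
    push Not at hn
    by_cases hu : u ∈ S
    · have hv := hS2 u v huv hu
      have h1 := hsplit v hv
      have h2 := hF u v hu huv
      have h3 := hS1 u hu
      omega
    · have hv := hn huv hu
      have h1 := h0 v hv
      have h2 := hs.le huv
      omega

theorem edge_low2 [Fintype V] {D : V → Prop} {Δ : ℕ} {L : Sym2 V → Finset ℕ} {H : SimpleGraph V}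
    (hs : Sys2 D Δ L H) (hno : ¬ ∃ c, Ok H L c) (hmin : ∀ A : SimpleGraph V, A < H → ∃ c, Ok A L c)
    {u v : V} (huv : H.Adj u v) : Δ + 1 ≤ dg H u + dg H v := by
  by_contra hcon
  push Not at hcon
  have hle : H.deleteEdges {s(u, v)} ≤ H := SimpleGraph.deleteEdges_le _
  have hlt : H.deleteEdges {s(u, v)} < H := by
    refine lt_of_le_of_ne hle ?_
    intro heq
    have : (H.deleteEdges {s(u, v)}).Adj u v := by rw [heq]; exact huv
    rw [SimpleGraph.deleteEdges_adj] at this
    exact this.2 rfl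
  obtain ⟨c, hc⟩ := hmin _ hlt
  refine hno (ext_greedy _ H hle L ?_ c hc)
  intro a b hab hnab
  rw [SimpleGraph.deleteEdges_adj] at hnab
  push Not at hnab
  have h4 := hnab hab
  rw [Set.mem_singleton_iff, Sym2.eq_iff] at h4
  have h5 := hs.l0 a b hab
  rcases h4 with ⟨rfl, rfl⟩ | ⟨rfl, rfl⟩ <;> omega

/-- Reduction to minimal graphs without a colouring. -/
theorem by_min2 [Fintype V] {D : V → Prop} {Δ : ℕ} {L : Sym2 V → Finset ℕ} {G : SimpleGraph V}
    (hs : Sys2 D Δ L G)
    (h : ∀ H : SimpleGraph V, H ≤ G → Sys2 D Δ L H → (¬ ∃ c, Ok H L c) →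
      (∀ A : SimpleGraph V, A < H → ∃ c, Ok A L c) → False) : ∃ c, Ok G L c := by
  by_contra hcon
  have hfin : {H : SimpleGraph V | H ≤ G ∧ ¬ ∃ c, Ok H L c}.Finite := Set.toFinite _
  obtain ⟨H, hH, hmin⟩ := hfin.exists_minimal ⟨G, le_rfl, hcon⟩
  refine h H hH.1 (hs.mono hH.1) hH.2 ?_
  intro A hA
  by_contra hno
  have := hmin (y := A) ⟨hA.le.trans hH.1, hno⟩ hA.le
  exact absurd this (not_le_of_gt hA)

theorem sum_gauss2 (j : ℕ) : 2 * ∑ t ∈ Icc 1 j, (t - 1) + j = j * j := by
  induction j with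
  | zero => simp
  | succ j ih =>
    rw [sum_Icc_succ_top (by omega), mul_add]
    have : (j + 1) * (j + 1) = j * j + 2 * j + 1 := by ring
    omega

/-- The arithmetic of the discharging. -/
theorem arith2 (k Δ d : ℕ) (hk : 1 ≤ k) (hΔ : k * k + k + 4 ≤ 2 * Δ) (hd : d + 1 ≤ Δ)
    (hkd : k + 1 ≤ d) (g : ℕ → ℕ) (hg : ∀ t, g t = 0 ∨ g t + Δ ≤ d + t) :
    ∑ t ∈ Icc 1 k, g t + (k + 1) ≤ d := by
  by_cases hcase : d + k < Δ
  · have h0 : ∑ t ∈ Icc 1 k, g t = 0 := by
      apply sum_eq_zero
      intro t ht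
      rw [mem_Icc] at ht
      rcases hg t with h | h
      · exact h
      · omega
    omega
  · obtain ⟨j, rfl⟩ : ∃ j, k = j + 1 := ⟨k - 1, by omega⟩
    rw [sum_Icc_succ_top (by omega)]
    have h1 : ∑ t ∈ Icc 1 j, g t ≤ ∑ t ∈ Icc 1 j, (t - 1) := by
      apply sum_le_sum
      intro t ht
      rcases hg t with h | h <;> omega
    have h2 := sum_gauss2 j
    have h3 := hg (j + 1)
    have h4 : (j + 1) * (j + 1) + (j + 1) + 4 = j * j + 3 * j + 6 := by ring
    omega

/-- The masters of the vertices of small degree. -/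
theorem masters2 [Fintype V] {D : V → Prop} {Δ : ℕ} {L : Sym2 V → Finset ℕ} {H : SimpleGraph V}
    (hs : Sys2 D Δ L H) (hno : ¬ ∃ c, Ok H L c)
    (hmin : ∀ A : SimpleGraph V, A < H → ∃ c, Ok A L c)
    (t : ℕ) (h2 : 2 * t ≤ Δ) (S : Finset V) (hS : ∀ x ∈ S, 1 ≤ dg H x ∧ dg H x ≤ t) :
    ∃ m : V → V, (∀ x ∈ S, H.Adj x (m x)) ∧ ∀ y, {x | x ∈ S ∧ m x = y}.ncard = 0 ∨
      (D y ∧ {x | x ∈ S ∧ m x = y}.ncard + Δ ≤ dg H y + t) ∨
      (¬ D y ∧ {x | x ∈ S ∧ m x = y}.ncard + Δ + 1 ≤ dg H y + t) := by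
  classical
  induction S using Finset.strongInduction with
  | H S ih =>
    by_cases hne : S = ∅
    · subst hne
      exact ⟨id, by simp, by simp⟩
    · obtain ⟨x0, hx0⟩ := nonempty_iff_ne_empty.2 hne
      -- a master
      obtain ⟨x, y, hx, hxy, hy⟩ : ∃ x y, x ∈ S ∧ H.Adj x y ∧
          {w | H.Adj y w ∧ w ∈ S}.ncard + (L s(x, y)).card < dg H y + t := by
        by_contra hcon
        push Not at hcon
        let A : SimpleGraph V :=
          { Adj := fun a b => H.Adj a b ∧ ¬ a ∈ S ∧ ¬ b ∈ S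
            symm := ⟨fun a b h => ⟨h.1.symm, h.2.2, h.2.1⟩⟩
            loopless := ⟨fun a h => H.loopless.irrefl a h.1⟩ }
        have hlt : A < H := by
          refine lt_of_le_of_ne (fun a b h => h.1) ?_
          intro heq
          have h1 := (hS x0 hx0).1
          rw [dg_eq] at h1
          obtain ⟨w, hw⟩ := card_pos.1 h1
          have hw' : H.Adj x0 w := by simpa using hw
          have : A.Adj x0 w := by rw [heq]; exact hw'
          exact this.2.1 hx0
        obtain ⟨c, hc⟩ := hmin A hlt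
        refine hno (red_low2 hs S t (fun x hx => (hS x hx).2) ?_ ?_ A
          (fun _ _ => Iff.rfl) c hc)
        · intro u v huv hu hv
          have h1 := edge_low2 hs hno hmin huv
          have h2 := (hS u hu).2
          have h3 := (hS v hv).2
          omega
        · intro x y hx hxy
          exact hcon x y hx hxy
      obtain ⟨m, hm1, hm2⟩ := ih (S.filter (fun w => ¬ H.Adj y w)) (by
        rw [Finset.ssubset_iff_subset_ne]
        refine ⟨filter_subset _ _, ?_⟩
        intro heq
        rw [← heq, mem_filter] at hx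
        exact hx.2 hxy.symm) (fun w hw => hS w (mem_filter.1 hw).1)
      refine ⟨fun w => if H.Adj y w then y else m w, ?_, ?_⟩
      · intro w hw
        by_cases hyw : H.Adj y w
        · simp only [if_pos hyw]
          exact hyw.symm
        · simp only [if_neg hyw]
          exact hm1 w (mem_filter.2 ⟨hw, hyw⟩)
      · intro z
        by_cases hz : z = y
        · right
          subst hz
          have hsub : {w | w ∈ S ∧ (if H.Adj z w then z else m w) = z} ⊆
              {w | H.Adj z w ∧ w ∈ S} := by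
            rintro w ⟨hw1, hw2⟩
            refine ⟨?_, hw1⟩
            by_contra hzw
            rw [if_neg hzw] at hw2
            have h4 := hm1 w (mem_filter.2 ⟨hw1, hzw⟩)
            rw [hw2] at h4
            exact hzw h4.symm
          have h5 := Set.ncard_le_ncard hsub (Set.toFinite _)
          have h6 : {x | x ∈ S ∧ (fun w => if H.Adj z w then z else m w) x = z}.ncard =
            {w | w ∈ S ∧ (if H.Adj z w then z else m w) = z}.ncard := rfl
          rw [h6]
          by_cases hD : D z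
          · left
            have h7 := hs.l0 x z hxy
            by_cases hDx : D x
            · have h8 := hs.degD z hD
              refine ⟨hD, ?_⟩
              omega
            · have h9 := hs.l1 x z hxy hDx
              refine ⟨hD, ?_⟩
              omega
          · right
            refine ⟨hD, ?_⟩
            have h9 := hs.l1 z x hxy.symm hD
            rw [Sym2.eq_swap] at h9
            omega
        · have hsub : {w | w ∈ S ∧ (if H.Adj y w then y else m w) = z} =
              {w | w ∈ S.filter (fun w => ¬ H.Adj y w) ∧ m w = z} := by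
            ext w
            simp only [mem_filter, Set.mem_ofPred_eq]
            by_cases hyw : H.Adj y w
            · constructor
              · rintro ⟨-, h3⟩
                rw [if_pos hyw] at h3
                exact absurd h3.symm hz
              · rintro ⟨⟨-, h3⟩, -⟩
                exact absurd hyw h3
            · rw [if_neg hyw]
              tauto
          have h6 : {x | x ∈ S ∧ (fun w => if H.Adj y w then y else m w) x = z}.ncard =
            {w | w ∈ S ∧ (if H.Adj y w then y else m w) = z}.ncard := rfl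
          rw [h6, hsub]
          exact hm2 z

/-- Sparse graphs of large maximum degree. -/
theorem list_sparse2 [Fintype V] {D : V → Prop} {Δ : ℕ} {L : Sym2 V → Finset ℕ}
    {G : SimpleGraph V} (hs : Sys2 D Δ L G) (k : ℕ) (hk : 1 ≤ k) (hΔ : k * k + k + 4 ≤ 2 * Δ)
    (hsp : ∀ A : Finset V, A.Nonempty →
      ∑ v ∈ A, (G.neighborSet v ∩ A).ncard < (k + 1) * A.card) :
    ∃ c, Ok G L c := by
  classical
  refine by_min2 hs ?_
  intro H hHG hs hno hmin
  have h2k : 2 * k ≤ Δ := by nlinarith
  have hlow : ∀ x y, H.Adj x y → dg H x ≤ k → k + 1 ≤ dg H y := by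
    intro x y hxy hx
    have := edge_low2 hs hno hmin hxy
    omega
  have hm : ∀ t : ℕ, ∃ m : V → V, t ≤ k → (∀ x, 1 ≤ dg H x → dg H x ≤ t → H.Adj x (m x)) ∧
      ∀ y, {x | (1 ≤ dg H x ∧ dg H x ≤ t) ∧ m x = y}.ncard = 0 ∨
      (D y ∧ {x | (1 ≤ dg H x ∧ dg H x ≤ t) ∧ m x = y}.ncard + Δ ≤ dg H y + t) ∨
      (¬ D y ∧ {x | (1 ≤ dg H x ∧ dg H x ≤ t) ∧ m x = y}.ncard + Δ + 1 ≤ dg H y + t) := by
    intro t
    by_cases ht : t ≤ k
    · obtain ⟨m, h1, h2⟩ := masters2 hs hno hmin t (by omega)
        (univ.filter (fun x => 1 ≤ dg H x ∧ dg H x ≤ t)) (fun x hx => (mem_filter.1 hx).2)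
      refine ⟨m, fun _ => ⟨fun x hx1 hx2 => h1 x (mem_filter.2 ⟨mem_univ _, hx1, hx2⟩), ?_⟩⟩
      intro y
      have h3 := h2 y
      have h4 : {x | x ∈ univ.filter (fun x => 1 ≤ dg H x ∧ dg H x ≤ t) ∧ m x = y} =
          {x | (1 ≤ dg H x ∧ dg H x ≤ t) ∧ m x = y} := by
        ext x
        simp
      rwa [h4] at h3
    · exact ⟨id, fun h => absurd h ht⟩
  choose m hm using hm
  set low : Finset V := univ.filter (fun x => 1 ≤ dg H x ∧ dg H x ≤ k) with hlowdef
  set high : Finset V := univ.filter (fun x => k + 1 ≤ dg H x) with hhighdef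
  set g : ℕ → V → ℕ := fun t y => if t ≤ k then
    ((univ.filter (fun x => 1 ≤ dg H x ∧ dg H x ≤ t)).filter (fun x => m t x = y)).card else 0
    with hgdef
  have hg : ∀ t y, t ≤ k → g t y = {x | (1 ≤ dg H x ∧ dg H x ≤ t) ∧ m t x = y}.ncard := by
    intro t y ht
    simp only [hgdef]
    rw [if_pos ht, ← Set.ncard_coe_finset]
    congr 1
    ext x
    simp
  -- the high vertices
  have e1 : ∀ y ∈ high, ∑ t ∈ Icc 1 k, g t y + (k + 1) ≤ dg H y := by
    intro y hy
    by_cases hD : D y
    · refine arith2 k Δ (dg H y) hk hΔ (hs.degD y hD) (mem_filter.1 hy).2 (fun t => g t y) ?_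
      intro t
      by_cases ht : t ≤ k
      · rw [hg t y ht]
        rcases (hm t ht).2 y with h | h | h
        · exact Or.inl h
        · exact Or.inr h.2
        · exact absurd hD h.1
      · simp only [hgdef]
        rw [if_neg ht]
        exact Or.inl rfl
    · refine arith2 k (Δ + 1) (dg H y) hk (by omega) (by have := hs.deg y; omega)
        (mem_filter.1 hy).2 (fun t => g t y) ?_
      intro t
      by_cases ht : t ≤ k
      · rw [hg t y ht]
        rcases (hm t ht).2 y with h | h | h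
        · exact Or.inl h
        · exact absurd h.1 hD
        · exact Or.inr h.2
      · simp only [hgdef]
        rw [if_neg ht]
        exact Or.inl rfl
  -- double counting
  have e2 : ∑ y ∈ high, ∑ t ∈ Icc 1 k, g t y = ∑ x ∈ low, (k + 1 - dg H x) := by
    rw [sum_comm]
    have e3 : ∀ t ∈ Icc 1 k, ∑ y ∈ high, g t y =
        ∑ x ∈ low, if dg H x ≤ t then 1 else 0 := by
      intro t ht
      rw [mem_Icc] at ht
      have e4 : ∀ y ∈ high, g t y = ((univ.filter
          (fun x => 1 ≤ dg H x ∧ dg H x ≤ t)).filter (fun x => m t x = y)).card := by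
        intro y _
        simp only [hgdef]
        rw [if_pos ht.2]
      have e10 : (univ.filter (fun x => 1 ≤ dg H x ∧ dg H x ≤ t)).card =
          ∑ y ∈ high, ((univ.filter
            (fun x => 1 ≤ dg H x ∧ dg H x ≤ t)).filter (fun x => m t x = y)).card := by
        have h6 := card_eq_sum_card_fiberwise (f := m t)
          (s := univ.filter (fun x => 1 ≤ dg H x ∧ dg H x ≤ t)) (t := high) (by
            intro x hx
            have hx' := (mem_filter.1 (mem_coe.1 hx)).2
            have h5 := (hm t ht.2).1 x hx'.1 hx'.2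
            rw [mem_coe, hhighdef, mem_filter]
            exact ⟨mem_univ _, hlow x _ h5 (by omega)⟩)
        rw [h6]
      rw [sum_congr rfl e4, ← e10, ← sum_filter, sum_const, smul_eq_mul, mul_one]
      congr 1
      ext x
      simp only [hlowdef, mem_filter, mem_univ, true_and]
      constructor
      · rintro ⟨h1, h2⟩
        exact ⟨⟨h1, by omega⟩, h2⟩
      · rintro ⟨⟨h1, h2⟩, h3⟩
        exact ⟨h1, h3⟩
    rw [sum_congr rfl e3, sum_comm]
    apply sum_congr rfl
    intro x hx
    have hx' := (mem_filter.1 hx).2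
    rw [← sum_filter, sum_const, smul_eq_mul, mul_one]
    have : (Icc 1 k).filter (fun t => dg H x ≤ t) = Icc (dg H x) k := by
      ext t
      simp only [mem_filter, mem_Icc]
      omega
    rw [this, Nat.card_Icc]
  have e5 : (k + 1) * high.card + ∑ x ∈ low, (k + 1 - dg H x) ≤ ∑ y ∈ high, dg H y := by
    have := sum_le_sum e1
    rw [sum_add_distrib, e2, sum_const, smul_eq_mul] at this
    rw [mul_comm]
    omega
  have e6 : (k + 1) * low.card = ∑ x ∈ low, (k + 1 - dg H x) + ∑ x ∈ low, dg H x := by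
    rw [← sum_add_distrib, mul_comm, ← smul_eq_mul, ← sum_const]
    apply sum_congr rfl
    intro x hx
    have hx' := (mem_filter.1 hx).2
    omega
  have hdisj : Disjoint low high := by
    rw [disjoint_left]
    intro x h1 h2
    rw [hlowdef, mem_filter] at h1
    rw [hhighdef, mem_filter] at h2
    omega
  have e7 : (k + 1) * (low ∪ high).card ≤ ∑ x ∈ low ∪ high, dg H x := by
    rw [card_union_of_disjoint hdisj, sum_union hdisj, mul_add]
    omega
  have hmem : ∀ x, x ∈ low ∪ high ↔ 1 ≤ dg H x := by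
    intro x
    simp only [hlowdef, hhighdef, mem_union, mem_filter, mem_univ, true_and]
    omega
  have hadj : ∀ x y, H.Adj x y → 1 ≤ dg H x := by
    intro x y hxy
    rw [dg_eq]
    exact card_pos.2 ⟨y, by simpa using hxy⟩
  have hne : (low ∪ high).Nonempty := by
    by_contra hcon
    rw [not_nonempty_iff_eq_empty] at hcon
    apply hno
    refine ⟨fun _ => 0, ?_, ?_⟩
    · intro u v huv
      have := (hmem u).2 (hadj u v huv)
      rw [hcon] at this
      exact absurd this (notMem_empty u)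
    · intro u v w huv
      have := (hmem u).2 (hadj u v huv)
      rw [hcon] at this
      exact absurd this (notMem_empty u)
  have e8 := hsp _ hne
  have e9 : ∑ x ∈ low ∪ high, dg H x ≤
      ∑ v ∈ low ∪ high, (G.neighborSet v ∩ ↑(low ∪ high)).ncard := by
    apply sum_le_sum
    intro x _
    refine Set.ncard_le_ncard ?_ (Set.toFinite _)
    intro w hw
    have hw' : H.Adj x w := hw
    exact ⟨hHG hw', mem_coe.2 ((hmem w).2 (hadj w x hw'.symm))⟩
  omega

/-- A graph of small maximum degree can be coloured. -/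
theorem max_low2 [Fintype V] {D : V → Prop} {Δ : ℕ} {L : Sym2 V → Finset ℕ} {H : SimpleGraph V}
    (hs : Sys2 D Δ L H) (hno : ¬ ∃ c, Ok H L c)
    (hmin : ∀ A : SimpleGraph V, A < H → ∃ c, Ok A L c)
    (M : ℕ) (hM : ∀ v, dg H v ≤ M) (h3 : 3 * M + 1 ≤ 2 * Δ) : False := by
  classical
  obtain ⟨X, hX0⟩ := cut H
  have hX : ∀ u, (univ.filter (fun v => H.Adj u v ∧ (X u ↔ X v))).card ≤
      (univ.filter (fun v => H.Adj u v ∧ ¬ (X u ↔ X v))).card := by
    intro u
    refine le_of_eq_of_le ?_ (le_of_le_of_eq (hX0 u) ?_)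
    · congr
    · congr
  let A : SimpleGraph V :=
    { Adj := fun a b => H.Adj a b ∧ (X a ↔ X b)
      symm := ⟨fun a b h => ⟨h.1.symm, h.2.symm⟩⟩
      loopless := ⟨fun a h => H.loopless.irrefl a h.1⟩ }
  have hA : ∀ a b, A.Adj a b ↔ H.Adj a b ∧ (X a ↔ X b) := fun _ _ => Iff.rfl
  have hle : A ≤ H := fun a b h => h.1
  have hsplit : ∀ y, (univ.filter (fun v => H.Adj y v ∧ (X y ↔ X v))).card +
      (univ.filter (fun v => H.Adj y v ∧ ¬ (X y ↔ X v))).card = dg H y := by
    intro y
    rw [dg_eq, ← card_union_of_disjoint]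
    · congr 1
      ext w
      simp only [mem_union, mem_filter, mem_univ, true_and]
      tauto
    · rw [disjoint_left]
      intro w h1 h2
      rw [mem_filter] at h1 h2
      exact h2.2.2 h1.2.2
  have hdA : ∀ y, dg A y = (univ.filter (fun v => H.Adj y v ∧ (X y ↔ X v))).card := by
    intro y
    rw [dg_eq]
  have hlt : A < H := by
    refine lt_of_le_of_ne hle ?_
    intro heq
    have hne : H ≠ ⊥ := by
      rintro rfl
      exact hno ⟨fun _ => 0, fun u v h => absurd h (by simp), fun u v w h => absurd h (by simp)⟩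
    obtain ⟨u, v, huv⟩ : ∃ u v, H.Adj u v := by
      by_contra hcon
      push Not at hcon
      apply hne
      ext u v
      simp [hcon u v]
    have h1 := hX u
    have h2 := hsplit u
    have h4 : dg A u = dg H u := by rw [heq]
    rw [hdA u] at h4
    have h5 : 0 < dg H u := by
      rw [dg_eq]
      exact card_pos.2 ⟨v, by simpa using huv⟩
    omega
  obtain ⟨c, hc⟩ := hmin A hlt
  refine hno (ext A H hle X ?_ L ?_ c hc)
  · intro u v huv hn
    rw [hA] at hn
    push Not at hn
    have := hn huv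
    tauto
  · intro u v huv _
    have h1 := hX v
    have h2 := hsplit v
    have h4 := hdA v
    have h5 := hM u
    have h6 := hM v
    have h7 := hs.l0 u v huv
    omega

/-- Every vertex of degree more than `k` has few neighbours of degree more than `k`. -/
theorem list_local2 [Fintype V] {D : V → Prop} {Δ : ℕ} {L : Sym2 V → Finset ℕ}
    {G : SimpleGraph V} (hs : Sys2 D Δ L G) (k : ℕ) (h2 : 2 * k ≤ Δ) (h3 : Δ ≤ 3 * k + 2)
    (hk : ∀ v, k < dg G v → {w | G.Adj v w ∧ k < dg G w}.ncard + k + 1 ≤ Δ) :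
    ∃ c, Ok G L c := by
  classical
  refine by_min2 hs ?_
  intro H hHG hs hno hmin
  have hkH : ∀ v, k < dg H v → {w | H.Adj v w ∧ ¬ dg H w ≤ k}.ncard + k + 1 ≤ Δ := by
    intro v hv
    have h := hk v (lt_of_lt_of_le hv (dg_mono hHG v))
    have h1 : {w | H.Adj v w ∧ ¬ dg H w ≤ k}.ncard ≤ {w | G.Adj v w ∧ k < dg G w}.ncard := by
      refine Set.ncard_le_ncard ?_ (Set.toFinite _)
      intro w hw
      exact ⟨hHG hw.1, lt_of_lt_of_le (not_le.1 hw.2) (dg_mono hHG w)⟩
    omega
  have hsplit : ∀ y, {w | H.Adj y w ∧ ¬ dg H w ≤ k}.ncard +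
      {w | H.Adj y w ∧ dg H w ≤ k}.ncard = dg H y := by
    intro y
    rw [dg, ← Set.ncard_union_eq]
    · congr 1
      ext w
      simp only [Set.mem_union, Set.mem_ofPred_eq, SimpleGraph.mem_neighborSet]
      tauto
    · rw [Set.disjoint_left]
      intro w h1 h2
      exact h1.2 h2.2
  have hind : ∀ u v, H.Adj u v → dg H u ≤ k → ¬ dg H v ≤ k := by
    intro u v huv hu hv
    have := edge_low2 hs hno hmin huv
    omega
  by_cases hex : ∃ u v, H.Adj u v ∧ dg H u ≤ k
  · obtain ⟨u, v, huv, hu⟩ := hex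
    let A : SimpleGraph V :=
      { Adj := fun a b => H.Adj a b ∧ ¬ dg H a ≤ k ∧ ¬ dg H b ≤ k
        symm := ⟨fun a b h => ⟨h.1.symm, h.2.2, h.2.1⟩⟩
        loopless := ⟨fun a h => H.loopless.irrefl a h.1⟩ }
    have hlt : A < H := by
      refine lt_of_le_of_ne (fun a b h => h.1) ?_
      intro heq
      have : A.Adj u v := by rw [heq]; exact huv
      exact this.2.1 hu
    obtain ⟨c, hc⟩ := hmin A hlt
    refine hno (red_low2 hs (univ.filter (fun x => dg H x ≤ k)) k
      (fun x hx => (mem_filter.1 hx).2) ?_ ?_ A ?_ c hc)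
    · intro u v huv hu hv
      exact hind u v huv (mem_filter.1 hu).2 (mem_filter.1 hv).2
    · intro x y hx hxy
      have h5 := hind x y hxy (mem_filter.1 hx).2
      have h6 := hkH y (not_le.1 h5)
      have h7 := hsplit y
      have h8 : {w | H.Adj y w ∧ w ∈ univ.filter (fun x => dg H x ≤ k)} =
          {w | H.Adj y w ∧ dg H w ≤ k} := by
        ext w
        simp
      have h9 := hs.l0 x y hxy
      rw [h8]
      omega
    · intro a b
      simp [A]
  · push Not at hex
    have hM : ∀ v, dg H v ≤ Δ - k - 1 := by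
      intro v
      rcases Nat.eq_zero_or_pos (dg H v) with h0 | h0
      · omega
      · have h5 : ∃ w, H.Adj v w := by
          rw [dg_eq] at h0
          obtain ⟨w, hw⟩ := card_pos.1 h0
          exact ⟨w, by simpa using hw⟩
        obtain ⟨w, hw⟩ := h5
        have h6 := hkH v (hex v w hw)
        have h7 := hsplit v
        have h8 : {w | H.Adj v w ∧ dg H w ≤ k}.ncard = 0 := by
          rw [Set.ncard_eq_zero (Set.toFinite _), Set.eq_empty_iff_forall_notMem]
          rintro w ⟨h9, h10⟩
          have := hex w v h9.symm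
          omega
        omega
    have hΔ : k + 1 ≤ Δ := by
      by_contra hcon
      have hne : ∃ u v, H.Adj u v := by
        by_contra hcon2
        push Not at hcon2
        exact hno ⟨fun _ => 0, fun u v h => absurd h (hcon2 u v),
          fun u v w h => absurd h (hcon2 u v)⟩
      obtain ⟨u, v, huv⟩ := hne
      have h6 := hkH u (hex u v huv)
      omega
    exact max_low2 hs hno hmin (Δ - k - 1) hM (by omega)

/-- The colouring of the matching extends if the edges outside it can be coloured from suitable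
lists. -/
theorem plus3 {V : Type} [Fintype V] (G H : SimpleGraph V) (Δ : ℕ)
    (hΔ : ∀ v, (G.neighborSet v).ncard ≤ Δ) (hHG : H ≤ G)
    (hmatch : ∀ u v w, H.Adj u v → H.Adj u w → v = w)
    (f0 : V → Fin (Δ + 3)) (g0 : Sym2 V → Fin (Δ + 3)) (h0 : IsTotal H f0 g0)
    (hprop : ∀ u v, (∃ x, H.Adj u x) → (∃ y, H.Adj v y) → G.Adj u v → f0 u ≠ f0 v)
    (key : ∀ L : Sym2 V → Finset ℕ, Sys2 (fun v => ∃ x, H.Adj v x) Δ L (G \ H) →
      ∃ c, Ok (G \ H) L c) :
    ∃ (f : V → Fin (Δ + 3)) (g : Sym2 V → Fin (Δ + 3)), IsTotal G f g ∧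
      ∀ u v, H.Adj u v → f u = f0 u ∧ g s(u, v) = g0 s(u, v) := by
  classical
  have hΔ' : ∀ v, dg G v ≤ Δ := hΔ
  obtain ⟨f, hf1, hf2⟩ := vext G f0 (fun v => ∃ x, H.Adj v x) hprop
    (fun v => by have := hΔ' v; omega)
  refine core G H hHG hmatch f0 g0 h0 hprop f hf1 hf2 ?_
  intro L hL
  apply key
  have hLc : ∀ u v, (G \ H).Adj u v → Δ + 3 ≤ (L s(u, v)).card + 2 +
      (if ∃ x, H.Adj u x then 1 else 0) + (if ∃ x, H.Adj v x then 1 else 0) :=
    fun u v huv => lcard H hmatch f g0 (L s(u, v)) u v (hL u v huv)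
  refine ⟨?_, ?_, ?_, ?_, ?_⟩
  · intro v
    exact (dg_mono sdiff_le v).trans (hΔ' v)
  · rintro v ⟨x, hx⟩
    have h1 : dg (G \ H) v < dg G v := dg_lt sdiff_le (hHG hx) (fun h => h.2 hx)
    have := hΔ' v
    omega
  · intro u v huv
    have h1 := hLc u v huv
    split_ifs at h1 <;> omega
  · intro u v huv hu
    have h1 := hLc u v huv
    rw [if_neg hu] at h1
    split_ifs at h1 <;> omega
  · intro u v huv hu hv
    have h1 := hLc u v huv
    rw [if_neg hu, if_neg hv] at h1
    omega

end Pool.Agent.R61.TotExt
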